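import Mathlib
import Pool.Agent.MP_671186_gt.Thin
import Pool.Agent.MP_92c74b_an.Brouwer

section

set_option autoImplicit false

namespace Pool.Agent.MP_671186_gt

open Set

/-- The continuous shell function attached to the open face with lower corner `a` and set of
frozen coordinates `s`. -/
noncomputable def faceFun {d : ℕ} (a : Fin d → ℤ) (s : Fin d → Bool) (x : Fin d → ℝ) : ℝ :=
  ∏ i, if s i then 1 else (x i - a i) * (1 - (x i - a i))

lemma continuous_faceFun {d : ℕ} (a : Fin d → ℤ) (s : Fin d → Bool) :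
    Continuous (faceFun a s) := by
  unfold faceFun
  refine continuous_finsetProd _ fun i _ => ?_
  by_cases h : s i = true
  · simp only [h, if_true]; exact continuous_const
  · simp only [h, Bool.false_eq_true, if_false]; fun_prop

open Classical in
noncomputable def corner {d : ℕ} (x : Fin d → ℝ) : Fin d → ℤ := fun i => ⌊x i⌋

open Classical in
noncomputable def frozen {d : ℕ} (x : Fin d → ℝ) : Fin d → Bool :=
  fun i => decide (x i = (⌊x i⌋ : ℝ))

noncomputable def depth {d : ℕ} (x : Fin d → ℝ) : ℝ := faceFun (corner x) (frozen x) x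

lemma depth_pos {d : ℕ} (x : Fin d → ℝ) : 0 < depth x := by
  unfold depth faceFun
  refine Finset.prod_pos fun i _ => ?_
  by_cases h : frozen x i = true
  · simp [h]
  · simp only [h]
    have h1 : x i ≠ (⌊x i⌋ : ℝ) := by simpa [frozen] using h
    have h2 : (⌊x i⌋ : ℝ) ≤ x i := Int.floor_le _
    have h3 : x i < ⌊x i⌋ + 1 := Int.lt_floor_add_one _
    have h4 : (⌊x i⌋ : ℝ) < x i := lt_of_le_of_ne h2 (Ne.symm h1)
    simp only [corner, Bool.false_eq_true, if_false]
    apply mul_pos <;> linarith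

/-- The label of a point: its open face and the number of its shell. -/
noncomputable def label {d : ℕ} (x : Fin d → ℝ) : (Fin d → ℤ) × (Fin d → Bool) × ℕ :=
  (corner x, frozen x, ⌊1 / depth x⌋₊)

/-- A closed set containing the fibre of the label. -/
def hull {d : ℕ} (a : Fin d → ℤ) (s : Fin d → Bool) (k : ℕ) : Set (Fin d → ℝ) :=
  {x | (∀ i, (s i = true → x i = a i) ∧ (a i : ℝ) ≤ x i ∧ x i ≤ a i + 1) ∧
    k * faceFun a s x ≤ 1 ∧ 1 ≤ (k + 1) * faceFun a s x}

lemma isClosed_hull {d : ℕ} (a : Fin d → ℤ) (s : Fin d → Bool) (k : ℕ) :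
    IsClosed (hull a s k) := by
  have hc := continuous_faceFun a s
  have h1 : IsClosed {x : Fin d → ℝ |
      ∀ i, (s i = true → x i = a i) ∧ (a i : ℝ) ≤ x i ∧ x i ≤ a i + 1} := by
    rw [Set.ofPred_forall]
    refine isClosed_iInter fun i => ?_
    refine IsClosed.inter ?_ (IsClosed.inter ?_ ?_)
    · by_cases h : s i = true
      · simp only [h, forall_true_left]
        exact isClosed_eq (continuous_apply i) continuous_const
      · have : ({x : Fin d → ℝ | s i = true → x i = a i}) = univ := by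
          ext x; simp [h]
        change IsClosed {x : Fin d → ℝ | s i = true → x i = a i}
        rw [this]; exact isClosed_univ
    · exact isClosed_le continuous_const (continuous_apply i)
    · exact isClosed_le (continuous_apply i) continuous_const
  have h2 : IsClosed {x : Fin d → ℝ | k * faceFun a s x ≤ 1} :=
    isClosed_le (continuous_const.mul hc) continuous_const
  have h3 : IsClosed {x : Fin d → ℝ | 1 ≤ (k + 1) * faceFun a s x} :=
    isClosed_le continuous_const (continuous_const.mul hc)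
  exact h1.inter (h2.inter h3)

lemma mem_hull_of_label {d : ℕ} (x : Fin d → ℝ) :
    x ∈ hull (corner x) (frozen x) ⌊1 / depth x⌋₊ := by
  have hp := depth_pos x
  refine ⟨fun i => ⟨?_, ?_, ?_⟩, ?_, ?_⟩
  · intro h
    simpa [frozen, corner] using h
  · exact Int.floor_le _
  · exact (Int.lt_floor_add_one _).le
  · have h1 : (⌊1 / depth x⌋₊ : ℝ) ≤ 1 / depth x := Nat.floor_le (by positivity)
    change (⌊1 / depth x⌋₊ : ℝ) * depth x ≤ 1
    rwa [le_div_iff₀ hp] at h1
  · have h1 : 1 / depth x < (⌊1 / depth x⌋₊ : ℝ) + 1 := Nat.lt_floor_add_one _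
    change 1 ≤ ((⌊1 / depth x⌋₊ : ℝ) + 1) * depth x
    rw [div_lt_iff₀ hp] at h1
    exact h1.le

lemma label_of_mem_hull {d : ℕ} {a : Fin d → ℤ} {s : Fin d → Bool} {k : ℕ} {p : Fin d → ℝ}
    (hp : p ∈ hull a s k) :
    a = corner p ∧ s = frozen p ∧ (k = ⌊1 / depth p⌋₊ ∨ k = ⌊1 / depth p⌋₊ - 1) := by
  obtain ⟨h1, h2, h3⟩ := hp
  have hne : faceFun a s p ≠ 0 := by
    intro h; rw [h] at h3; norm_num at h3
  have hfac : ∀ i, s i = false → (a i : ℝ) < p i ∧ p i < a i + 1 := by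
    intro i hi
    have := (Finset.prod_ne_zero_iff.mp hne) i (Finset.mem_univ i)
    simp only [hi, Bool.false_eq_true, if_false] at this
    obtain ⟨_, hb, hc⟩ := h1 i
    have hA : p i - a i ≠ 0 := left_ne_zero_of_mul this
    have hB : 1 - (p i - a i) ≠ 0 := right_ne_zero_of_mul this
    constructor
    · refine lt_of_le_of_ne hb fun h => hA (by linarith)
    · refine lt_of_le_of_ne hc fun h => hB (by linarith)
  have ha : a = corner p := by
    funext i
    symm
    change ⌊p i⌋ = a i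
    cases hi : s i
    · obtain ⟨h4, h5⟩ := hfac i hi
      exact Int.floor_eq_iff.mpr ⟨h4.le, h5⟩
    · rw [(h1 i).1 hi]; simp
  have hs : s = frozen p := by
    funext i
    have hai : (⌊p i⌋ : ℤ) = a i := by rw [ha]; rfl
    cases hi : s i
    · obtain ⟨h4, _⟩ := hfac i hi
      symm
      simp only [frozen, hai, decide_eq_false_iff_not]
      exact ne_of_gt h4
    · symm
      simp only [frozen, hai, decide_eq_true_eq]
      exact (h1 i).1 hi
  refine ⟨ha, hs, ?_⟩
  have hd : faceFun a s p = depth p := by rw [ha, hs]; rfl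
  rw [hd] at h2 h3
  have hpos := depth_pos p
  have h4 : (k : ℝ) ≤ 1 / depth p := by rwa [le_div_iff₀ hpos]
  have h5 : 1 / depth p ≤ (k : ℝ) + 1 := by rwa [div_le_iff₀ hpos]
  have h6 : k ≤ ⌊1 / depth p⌋₊ := Nat.le_floor h4
  have h7 : ⌊1 / depth p⌋₊ ≤ k + 1 := by
    apply Nat.floor_le_of_le
    exact_mod_cast h5
  omega

/-- The labelling, rescaled to mesh `D`. -/
noncomputable def slabel {d : ℕ} (D : ℝ) (x : Fin d → ℝ) : (Fin d → ℤ) × (Fin d → Bool) × ℕ :=
  label (fun i => x i / D)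

theorem shells (d : ℕ) (D : ℝ) (hD : 0 < D) :
    ∃ P : Set (Set (Fin d → ℝ)),
      Setoid.IsPartition P ∧ P.Countable ∧
      (∀ X ∈ P, ∀ x ∈ X, ∀ y ∈ X, dist x y < D) ∧
      ∀ p : Fin d → ℝ, {X ∈ P | p ∈ closure X}.encard ≤ 2 := by
  refine ⟨(Setoid.ker (slabel (d := d) D)).classes, Setoid.isPartition_classes _, ?_, ?_, ?_⟩
  · have : (Setoid.ker (slabel (d := d) D)).classes ⊆
        range (fun l => slabel (d := d) D ⁻¹' {l}) := by
      rintro X ⟨y, rfl⟩
      exact ⟨slabel D y, rfl⟩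
    exact (countable_range _).mono this
  · rintro X ⟨z, rfl⟩ x hx y hy
    have hx' : slabel D x = slabel D z := hx
    have hy' : slabel D y = slabel D z := hy
    have hxy : corner (fun i => x i / D) = corner (fun i => y i / D) :=
      congrArg Prod.fst (hx'.trans hy'.symm)
    rw [dist_pi_lt_iff hD]
    intro i
    have hi : ⌊x i / D⌋ = ⌊y i / D⌋ := congrFun hxy i
    have h1 : |x i / D - y i / D| < 1 := Int.abs_sub_lt_one_of_floor_eq_floor hi
    rw [Real.dist_eq]
    rw [← sub_div, abs_div, abs_of_pos hD, div_lt_one hD] at h1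
    exact h1
  · intro p
    set q : Fin d → ℝ := fun i => p i / D with hq
    have hsub : {X ∈ (Setoid.ker (slabel (d := d) D)).classes | p ∈ closure X} ⊆
        {slabel D ⁻¹' {(corner q, frozen q, ⌊1 / depth q⌋₊)},
         slabel D ⁻¹' {(corner q, frozen q, ⌊1 / depth q⌋₊ - 1)}} := by
      rintro X ⟨⟨z, rfl⟩, hp⟩
      set w : Fin d → ℝ := fun i => z i / D with hw
      have hcont : Continuous (fun x : Fin d → ℝ => fun i => x i / D) := by fun_prop
      have hcl : IsClosed ((fun x : Fin d → ℝ => fun i => x i / D) ⁻¹'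
          hull (corner w) (frozen w) ⌊1 / depth w⌋₊) := (isClosed_hull _ _ _).preimage hcont
      have hin : {x | (Setoid.ker (slabel (d := d) D)) x z} ⊆
          ((fun x : Fin d → ℝ => fun i => x i / D) ⁻¹'
          hull (corner w) (frozen w) ⌊1 / depth w⌋₊) := by
        intro x hx
        have hx' : slabel D x = slabel D z := hx
        have h1 := mem_hull_of_label (fun i => x i / D)
        have e1 : corner (fun i => x i / D) = corner w := congrArg Prod.fst hx'
        have e2 : frozen (fun i => x i / D) = frozen w := congrArg (fun t => t.2.1) hx'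
        have e3 : ⌊1 / depth (fun i => x i / D)⌋₊ = ⌊1 / depth w⌋₊ :=
          congrArg (fun t => t.2.2) hx'
        rw [e1, e2, e3] at h1
        exact h1
      have hq' : q ∈ hull (corner w) (frozen w) ⌊1 / depth w⌋₊ :=
        closure_minimal hin hcl hp
      obtain ⟨e1, e2, e3⟩ := label_of_mem_hull hq'
      have hz : slabel D z = (corner w, frozen w, ⌊1 / depth w⌋₊) := rfl
      have hX : {x | (Setoid.ker (slabel (d := d) D)) x z} = slabel D ⁻¹' {slabel D z} := rfl
      rw [hX, hz, e1, e2]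
      rcases e3 with e3 | e3
      · left; rw [e3]
      · right; rw [e3]; rfl
    refine (encard_le_encard hsub).trans ?_
    exact (encard_insert_le _ _).trans (by rw [encard_singleton]; rfl)

end Pool.Agent.MP_671186_gt

end

section

set_option autoImplicit false

namespace Pool.Agent.MP_671186_gt

open Set Metric

/-- Points all of whose coordinates are at distance at least `ρ` from the grid `θ + h ℤ`. -/
def Far {d : ℕ} (θ h ρ : ℝ) : Set (Fin d → ℝ) := {x | ∀ l, ∀ z : ℤ, ρ ≤ |x l - θ - z * h|}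

lemma isClosed_far {d : ℕ} (θ h ρ : ℝ) : IsClosed (Far (d := d) θ h ρ) := by
  have : Far (d := d) θ h ρ = ⋂ l, ⋂ z : ℤ, {x | ρ ≤ |x l - θ - z * h|} := by
    ext x; simp only [Far, mem_ofPred_eq, mem_iInter]
  rw [this]
  exact isClosed_iInter fun l => isClosed_iInter fun z =>
    isClosed_le continuous_const (by fun_prop)

lemma far_mono {d : ℕ} {θ ρ ρ' : ℝ} {m n : ℕ} (hmn : m ≤ n) (hρ : ρ' ≤ ρ) :
    Far (d := d) θ (1 / 2 ^ n) ρ ⊆ Far θ (1 / 2 ^ m) ρ' := by
  intro x hx l z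
  obtain ⟨t, rfl⟩ := Nat.exists_eq_add_of_le hmn
  have h := hx l (z * 2 ^ t)
  have e : ((z * 2 ^ t : ℤ) : ℝ) * (1 / 2 ^ (m + t)) = z * (1 / 2 ^ m) := by
    push_cast
    rw [pow_add]
    field_simp
  rw [e] at h
  exact hρ.trans h

lemma far_scale {d : ℕ} {θ h ρ c : ℝ} (hc : 0 < c) {x : Fin d → ℝ}
    (hx : (fun l => x l / c) ∈ Far θ h ρ) : x ∈ Far (c * θ) (c * h) (c * ρ) := by
  intro l z
  have h1 : ρ ≤ |x l / c - θ - z * h| := hx l z
  have e : x l - c * θ - z * (c * h) = c * (x l / c - θ - z * h) := by field_simp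
  rw [e, abs_mul, abs_of_pos hc]
  exact mul_le_mul_of_nonneg_left h1 hc.le

lemma thin_far {d : ℕ} (k : ℕ) (I : Finset ℕ) (hI : I.card ≤ k + 1) (θ : ℕ → ℝ) {h ρ δ : ℝ}
    (hh : 0 < h) (hρ : 0 < ρ) (hδ : h ≤ δ) {S : Set (Fin d → ℝ)} (lo hi : Fin d → ℝ)
    (hR : ∀ x ∈ S, ∀ l, lo l ≤ x l ∧ x l ≤ hi l) (hS : ∀ x ∈ S, ∃ i ∈ I, x ∈ Far (θ i) h ρ) :
    Thin k δ S := by
  let V : ℕ → (Fin d → ℤ) → Set (Fin d → ℝ) := fun i w =>
    {x | ∀ l, θ i + w l * h + ρ ≤ x l ∧ x l ≤ θ i + (w l + 1) * h - ρ}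
  let fl : ℕ → (Fin d → ℝ) → Fin d → ℤ := fun i x l => ⌊(x l - θ i) / h⌋
  refine ⟨⋃ i ∈ I, V i '' Icc (fl i lo) (fl i hi), ?_, ?_, ?_, ?_⟩
  · exact I.finite_toSet.biUnion fun i _ => (finite_Icc _ _).image _
  · intro W hW
    obtain ⟨i, -, w, -, rfl⟩ := mem_iUnion₂.1 hW
    constructor
    · have : V i w = ⋂ l, {x | θ i + w l * h + ρ ≤ x l} ∩ {x | x l ≤ θ i + (w l + 1) * h - ρ} := by
        ext x; simp only [V, mem_ofPred_eq, mem_iInter, mem_inter_iff]
      rw [this]
      exact isClosed_iInter fun l => (isClosed_le continuous_const (continuous_apply l)).inter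
        (isClosed_le (continuous_apply l) continuous_const)
    · intro x hx y hy
      rw [dist_pi_le_iff (by linarith)]
      intro l
      obtain ⟨a1, a2⟩ := hx l
      obtain ⟨a3, a4⟩ := hy l
      rw [Real.dist_eq, abs_le]
      constructor <;> nlinarith
  · intro x hx
    obtain ⟨i, hi', hxi⟩ := hS x hx
    refine ⟨V i (fl i x), mem_iUnion₂.2 ⟨i, hi', fl i x, ⟨fun l => ?_, fun l => ?_⟩, rfl⟩,
      fun l => ?_⟩
    · exact Int.floor_mono (div_le_div_of_nonneg_right (by linarith [(hR x hx l).1]) hh.le)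
    · exact Int.floor_mono (div_le_div_of_nonneg_right (by linarith [(hR x hx l).2]) hh.le)
    · have a1 : ((fl i x l : ℤ) : ℝ) ≤ (x l - θ i) / h := Int.floor_le _
      have a2 : (x l - θ i) / h < (fl i x l : ℤ) + 1 := Int.lt_floor_add_one _
      rw [le_div_iff₀ hh] at a1
      rw [div_lt_iff₀ hh] at a2
      have a3 := hxi l (fl i x l)
      have a4 := hxi l (fl i x l + 1)
      rw [abs_of_nonneg (by linarith)] at a3
      push_cast at a4
      rw [abs_of_nonpos (by linarith)] at a4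
      constructor <;> linarith
  · intro x
    have h1 : {W ∈ ⋃ i ∈ I, V i '' Icc (fl i lo) (fl i hi) | x ∈ W} ⊆
        (fun i => V i (fl i x)) '' (I : Set ℕ) := by
      rintro W ⟨hW, hxW⟩
      obtain ⟨i, hi', w, -, rfl⟩ := mem_iUnion₂.1 hW
      refine ⟨i, hi', ?_⟩
      have : fl i x = w := by
        funext l
        obtain ⟨a1, a2⟩ := hxW l
        refine Int.floor_eq_iff.2 ⟨?_, ?_⟩
        · rw [le_div_iff₀ hh]; linarith
        · rw [div_lt_iff₀ hh]; linarith
      simp only [this]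
    refine (encard_le_encard h1).trans ((encard_image_le _ _).trans ?_)
    rw [encard_coe_eq_coe_finsetCard]
    exact_mod_cast hI

lemma exists_free {d : ℕ} (y : Fin d → ℝ) (n : ℕ) (l0 : Fin d) (z0 : ℤ)
    (h0 : |y l0 - z0| < 1 / (2 * (2 * d + 1) * 2 ^ n)) :
    ∃ i < d, y ∈ Far (((i : ℝ) + 1) / (2 * d + 1)) (1 / 2 ^ n) (1 / (2 * (2 * d + 1) * 2 ^ n)) := by
  by_contra hcon
  have h1 : ∀ i : Fin (d + 1), ∃ (l : Fin d) (z : ℤ),
      |y l - ((i : ℕ) : ℝ) / (2 * d + 1) - z * (1 / 2 ^ n)| < 1 / (2 * (2 * d + 1) * 2 ^ n) := by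
    intro i
    rcases Nat.eq_zero_or_pos i with hi | hi
    · refine ⟨l0, z0 * 2 ^ n, ?_⟩
      have e : y l0 - ((i : ℕ) : ℝ) / (2 * d + 1) - ((z0 * 2 ^ n : ℤ) : ℝ) * (1 / 2 ^ n)
          = y l0 - z0 := by
        rw [hi]; push_cast; field_simp; ring
      rw [e]; exact h0
    · by_contra hh
      obtain ⟨t, ht⟩ := Nat.exists_eq_succ_of_ne_zero hi.ne'
      refine hcon ⟨t, by have := i.2; omega, fun l z => ?_⟩
      by_contra h2
      refine hh ⟨l, z, ?_⟩
      rw [ht]; push_cast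
      exact not_le.1 h2
  choose L Z hLZ using h1
  obtain ⟨i, i', hne, hL⟩ := Fintype.exists_ne_map_eq_of_card_lt L (by simp)
  have a1 := hLZ i
  have a2 := hLZ i'
  rw [← hL] at a2
  have hp : (0 : ℝ) < (2 * d + 1) * 2 ^ n := by positivity
  set u : ℤ := (((i' : ℕ) : ℤ) - ((i : ℕ) : ℤ)) * 2 ^ n + (2 * d + 1) * (Z i' - Z i) with hu
  have e : (u : ℝ) = ((2 * d + 1) * 2 ^ n) *
      ((y (L i) - ((i : ℕ) : ℝ) / (2 * d + 1) - Z i * (1 / 2 ^ n)) -
        (y (L i) - ((i' : ℕ) : ℝ) / (2 * d + 1) - Z i' * (1 / 2 ^ n))) := by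
    rw [hu]; push_cast; field_simp; ring
  have a3 : |(u : ℝ)| < 1 := by
    rw [e, abs_mul, abs_of_pos hp]
    have b1 := abs_sub (y (L i) - ((i : ℕ) : ℝ) / (2 * d + 1) - Z i * (1 / 2 ^ n))
      (y (L i) - ((i' : ℕ) : ℝ) / (2 * d + 1) - Z i' * (1 / 2 ^ n))
    have b2 : ((2 * d + 1) * 2 ^ n : ℝ) * (1 / (2 * (2 * d + 1) * 2 ^ n) +
        1 / (2 * (2 * d + 1) * 2 ^ n)) = 1 := by field_simp; ring
    calc _ < ((2 * d + 1) * 2 ^ n : ℝ) * (1 / (2 * (2 * d + 1) * 2 ^ n) +
        1 / (2 * (2 * d + 1) * 2 ^ n)) := mul_lt_mul_of_pos_left (by linarith) hp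
      _ = 1 := b2
  have a4 : u = 0 := by
    have : |u| < 1 := by exact_mod_cast a3
    exact Int.abs_lt_one_iff.1 this
  have cop : IsCoprime (2 * d + 1 : ℤ) (2 ^ n) :=
    IsCoprime.pow_right ⟨1, -d, by ring⟩
  have a5 : (2 * d + 1 : ℤ) ∣ (((i' : ℕ) : ℤ) - ((i : ℕ) : ℤ)) := by
    refine cop.dvd_of_dvd_mul_right ⟨-(Z i' - Z i), ?_⟩
    linarith
  have a6 := Int.eq_zero_of_abs_lt_dvd a5 (by
    have := i.2
    have := i'.2
    rw [abs_lt]; constructor <;> omega)
  exact hne (Fin.ext (by omega))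

lemma near_int {d : ℕ} (y : Fin d → ℝ) {η : ℝ} (hη : 0 < η) (hη1 : η ≤ 1)
    (h : depth y < η ^ d) : ∃ (l : Fin d) (z : ℤ), |y l - z| < 2 * η := by
  by_contra hcon
  have h1 : ∀ (l : Fin d) (z : ℤ), 2 * η ≤ |y l - z| := fun l z =>
    not_lt.1 fun hh => hcon ⟨l, z, hh⟩
  have h2 : η ^ d ≤ depth y := by
    have e : η ^ d = ∏ _l : Fin d, η := by simp
    rw [e]
    unfold depth faceFun
    refine Finset.prod_le_prod (fun _ _ => hη.le) fun l _ => ?_
    split_ifs
    · exact hη1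
    · have a1 : (⌊y l⌋ : ℝ) ≤ y l := Int.floor_le _
      have a2 : y l < ⌊y l⌋ + 1 := Int.lt_floor_add_one _
      have a3 := h1 l ⌊y l⌋
      have a4 := h1 l (⌊y l⌋ + 1)
      rw [abs_of_nonneg (by linarith)] at a3
      push_cast at a4
      rw [abs_of_nonpos (by linarith)] at a4
      simp only [corner]
      rcases le_total (y l - ⌊y l⌋) (1 / 2) with c | c <;> nlinarith
  linarith

/-- A colour below `d` whose grid, at a level growing with the shell number, is avoided. -/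
lemma exists_col {d : ℕ} (hd : 1 ≤ d) : ∃ col : (Fin d → ℝ) → ℕ, (∀ y, col y < d) ∧
    ∀ n : ℕ, ∃ s0 : ℕ, ∀ (y : Fin d → ℝ) (t : ℕ), s0 ≤ ⌊1 / depth y⌋₊ → ⌊1 / depth y⌋₊ ≤ t →
      y ∈ Far (((col y : ℝ) + 1) / (2 * d + 1)) (1 / 2 ^ n) (1 / (2 * (2 * d + 1) * 2 ^ t)) := by
  classical
  let f : ℕ → ℕ := fun n => (4 * (2 * d + 1) * 2 ^ n) ^ d
  let ψ : ℕ → ℕ := fun s => Nat.findGreatest (fun n => f n < s) s
  have h1 : ∀ y : Fin d → ℝ, ∃ i < d, (f (ψ ⌊1 / depth y⌋₊) < ⌊1 / depth y⌋₊ →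
      y ∈ Far (((i : ℝ) + 1) / (2 * d + 1)) (1 / 2 ^ ψ ⌊1 / depth y⌋₊)
        (1 / (2 * (2 * d + 1) * 2 ^ ψ ⌊1 / depth y⌋₊))) := by
    intro y
    by_cases h : f (ψ ⌊1 / depth y⌋₊) < ⌊1 / depth y⌋₊
    · set n := ψ ⌊1 / depth y⌋₊ with hn
      have hp := depth_pos y
      have hq : (1 : ℝ) ≤ 4 * (2 * d + 1) * 2 ^ n := by
        have b1 : (1 : ℝ) ≤ 2 ^ n := one_le_pow₀ (by norm_num)
        have b2 : (0 : ℝ) ≤ d := Nat.cast_nonneg d
        nlinarith
      have a1 : ((f n : ℕ) : ℝ) < 1 / depth y :=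
        lt_of_lt_of_le (by exact_mod_cast h) (Nat.floor_le (by positivity))
      have a2 : depth y < (1 / (4 * (2 * d + 1) * 2 ^ n) : ℝ) ^ d := by
        have e : ((f n : ℕ) : ℝ) = (4 * (2 * d + 1) * 2 ^ n : ℝ) ^ d := by
          simp only [f]; push_cast; ring
        rw [e, lt_div_iff₀ hp] at a1
        rw [one_div_pow, lt_div_iff₀ (by positivity)]
        linarith
      obtain ⟨l, z, hz⟩ := near_int y (by positivity) (by rw [div_le_one (by linarith)]; exact hq) a2
      obtain ⟨i, hi, hf⟩ := exists_free y n l z (lt_of_lt_of_eq hz (by field_simp; ring))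
      exact ⟨i, hi, fun _ => hf⟩
    · exact ⟨0, hd, fun h' => absurd h' h⟩
  choose col c1 c2 using h1
  refine ⟨col, c1, fun n => ⟨max n (f n + 1), fun y t hs ht => ?_⟩⟩
  have b1 : n ≤ ⌊1 / depth y⌋₊ := le_trans (le_max_left _ _) hs
  have b2 : f n < ⌊1 / depth y⌋₊ := lt_of_lt_of_le (Nat.lt_succ_self _)
    (le_trans (le_max_right _ _) hs)
  have b3 : n ≤ ψ ⌊1 / depth y⌋₊ :=
    Nat.le_findGreatest (P := fun n => f n < ⌊1 / depth y⌋₊) b1 b2
  have b4 : f (ψ ⌊1 / depth y⌋₊) < ⌊1 / depth y⌋₊ :=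
    Nat.findGreatest_spec (P := fun n => f n < ⌊1 / depth y⌋₊) b1 b2
  have b5 : ψ ⌊1 / depth y⌋₊ ≤ t := (Nat.findGreatest_le _).trans ht
  refine far_mono b3 ?_ (c2 y b4)
  refine one_div_le_one_div_of_le (by positivity) ?_
  exact mul_le_mul_of_nonneg_left (pow_le_pow_right₀ (by norm_num) b5) (by positivity)

end Pool.Agent.MP_671186_gt

end

section

set_option autoImplicit false

namespace Pool.Agent.MP_671186_gt

open Set Metric

variable {M : Type} [MetricSpace M]

/-- At each scale all but finitely many members are small. -/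
def Null {J : Type} (D : J → Set M) : Prop :=
  ∀ δ > 0, {j | ¬ ∀ x ∈ D j, ∀ y ∈ D j, dist x y ≤ δ}.Finite

lemma null_closed {J : Type} {D : J → Set M} (hc : ∀ j, IsClosed (D j)) (hn : Null D)
    {N : Set M} (hN : IsClosed N) {T : Set J} (hT : ∀ j ∈ T, (D j ∩ N).Nonempty) :
    IsClosed (N ∪ ⋃ j ∈ T, D j) := by
  rw [← isOpen_compl_iff, Metric.isOpen_iff]
  intro p hp
  simp only [mem_compl_iff, mem_union, mem_iUnion, not_or, not_exists] at hp
  obtain ⟨hp1, hp2⟩ := hp
  obtain ⟨ε, hε, h1⟩ := Metric.isOpen_iff.1 hN.isOpen_compl p hp1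
  have hF := hn (ε / 2) (by positivity)
  set F := {j | ¬ ∀ x ∈ D j, ∀ y ∈ D j, dist x y ≤ ε / 2} with hFdef
  have hK : IsClosed (⋃ j ∈ F ∩ T, D j) :=
    (hF.inter_of_left T).isClosed_biUnion fun j _ => hc j
  have hpK : p ∈ (⋃ j ∈ F ∩ T, D j)ᶜ := by
    simp only [mem_compl_iff, mem_iUnion, not_exists]
    intro j hj; exact hp2 j hj.2
  obtain ⟨ε', hε', h2⟩ := Metric.isOpen_iff.1 hK.isOpen_compl p hpK
  refine ⟨min (ε / 2) ε', by positivity, fun z hz => ?_⟩
  rw [mem_ball, lt_min_iff] at hz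
  simp only [mem_compl_iff, mem_union, mem_iUnion, not_or, not_exists]
  refine ⟨h1 (by rw [mem_ball]; linarith [hz.1]), fun j hj hzj => ?_⟩
  by_cases hjF : j ∈ F
  · exact h2 (mem_ball.2 hz.2) (mem_biUnion (show j ∈ F ∩ T from ⟨hjF, hj⟩) hzj)
  · obtain ⟨y, hy1, hy2⟩ := hT j hj
    have h3 : dist y z ≤ ε / 2 := by
      by_contra h
      exact hjF fun h' => h (h' y hy1 z hzj)
    have h4 : dist y p < ε := by
      have := dist_triangle y z p
      linarith [hz.1]
    exact h1 (mem_ball.2 h4) hy2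

lemma exists_core {E O : Set M} (hE : IsClosed E) (hO : IsClosed O) :
    ∃ N W : Set M, IsClosed N ∧ IsOpen W ∧ E \ O ⊆ W ∧ W ⊆ N ∧ Disjoint W O ∧ N ∩ O ⊆ E := by
  rcases E.eq_empty_or_nonempty with rfl | hEn
  · exact ⟨∅, ∅, isClosed_empty, isOpen_empty, by simp, by simp, by simp, by simp⟩
  rcases O.eq_empty_or_nonempty with rfl | hOn
  · exact ⟨univ, univ, isClosed_univ, isOpen_univ, by simp, by simp, by simp, by simp⟩
  refine ⟨{z | infDist z E ≤ infDist z O}, {z | infDist z E < infDist z O},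
    isClosed_le (continuous_infDist_pt E) (continuous_infDist_pt O),
    isOpen_lt (continuous_infDist_pt E) (continuous_infDist_pt O), ?_, ?_, ?_, ?_⟩
  · rintro z ⟨hz1, hz2⟩
    show infDist z E < infDist z O
    rw [infDist_zero_of_mem hz1]
    exact (hO.notMem_iff_infDist_pos hOn).1 hz2
  · intro z hz
    have h : infDist z E < infDist z O := hz
    exact h.le
  · rw [Set.disjoint_left]
    intro z hz hzO
    have h : infDist z E < infDist z O := hz
    rw [infDist_zero_of_mem hzO] at h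
    exact absurd h (not_lt.2 infDist_nonneg)
  · rintro z ⟨hz, hzO⟩
    have h : infDist z E ≤ infDist z O := hz
    rw [infDist_zero_of_mem hzO] at h
    exact (hE.mem_iff_infDist_zero hEn).2 (le_antisymm h infDist_nonneg)

/-- The invariant of the colouring process. -/
def Inv {J : Type} (D : J → Set M) (G : Bool → Set M) (S : Bool → Set J) : Prop :=
  (∀ b, IsClosed (G b)) ∧ (∀ b, ∀ j ∈ S b, j ∉ S (!b)) ∧ (∀ b, ∀ j ∈ S b, D j ⊆ G b) ∧
  ∀ b j, ∀ x ∈ G b, x ∈ D j → j ∉ S b → ∃ j' ∈ S b, x ∈ D j'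

lemma colour_step {J : Type} {D : J → Set M} (hc : ∀ j, IsClosed (D j)) (hn : Null D)
    {G : Bool → Set M} {S : Bool → Set J} (h : Inv D G S) (n : J) :
    ∃ (G' : Bool → Set M) (S' : Bool → Set J) (b : Bool) (W : Set M), Inv D G' S' ∧
      (∀ c, G c ⊆ G' c) ∧ (∀ c, S c ⊆ S' c) ∧ n ∈ S' b ∧ IsOpen W ∧ W ⊆ G' b ∧
      Disjoint W (G (!b)) ∧ ∀ x ∈ D n, x ∈ W ∨ ∃ j ∈ S' (!b), x ∈ D j := by
  classical
  obtain ⟨h1, h2, h3, h4⟩ := h
  obtain ⟨b, hb⟩ : ∃ b, n ∉ S (!b) := by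
    by_cases hn1 : n ∈ S true
    · exact ⟨true, h2 true n hn1⟩
    · exact ⟨false, hn1⟩
  obtain ⟨N, W, hN, hW, a1, a2, a3, a4⟩ := exists_core (hc n) (h1 (!b))
  set T : Set J := {j | j ∉ S (!b) ∧ (D j ∩ N).Nonempty} with hT
  have hcl : IsClosed (N ∪ ⋃ j ∈ T, D j) := null_closed hc hn hN fun j hj => hj.2
  have hnb : (!b) ≠ b := by cases b <;> simp
  have hor : ∀ c : Bool, c = b ∨ c = !b := by intro c; cases b <;> cases c <;> simp
  refine ⟨fun c => if c = b then G b ∪ D n ∪ (N ∪ ⋃ j ∈ T, D j) else G c,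
    fun c => if c = b then S b ∪ {n} ∪ T else S c, b, W, ⟨?_, ?_, ?_, ?_⟩, ?_, ?_, ?_, hW, ?_,
    a3, ?_⟩
  · intro c
    by_cases hcb : c = b
    · simp only [hcb, if_true]; exact ((h1 b).union (hc n)).union hcl
    · simp only [hcb, if_false]; exact h1 c
  · intro c j hj
    rcases hor c with rfl | rfl
    · simp only [if_true] at hj
      simp only [hnb, if_false]
      rcases hj with (hj | hj) | hj
      · exact h2 _ j hj
      · rw [mem_singleton_iff.1 hj]; exact hb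
      · exact hj.1
    · simp only [hnb, if_false] at hj
      simp only [Bool.not_not, if_true]
      rintro ((hj' | hj') | hj')
      · exact h2 _ j hj' hj
      · rw [mem_singleton_iff.1 hj'] at hj; exact hb hj
      · exact hj'.1 hj
  · intro c j hj
    by_cases hcb : c = b
    · simp only [hcb, if_true] at hj ⊢
      intro x hx
      rcases hj with (hj | hj) | hj
      · exact Or.inl (Or.inl (h3 b j hj hx))
      · rw [mem_singleton_iff.1 hj] at hx; exact Or.inl (Or.inr hx)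
      · exact Or.inr (Or.inr (mem_biUnion hj hx))
    · simp only [hcb, if_false] at hj ⊢
      exact h3 c j hj
  · intro c j x hx hxj hj
    by_cases hcb : c = b
    · simp only [hcb, if_true] at hx hj ⊢
      rcases hx with (hx | hx) | hx | hx
      · obtain ⟨j', hj', hxj'⟩ := h4 b j x hx hxj fun h => hj (Or.inl (Or.inl h))
        exact ⟨j', Or.inl (Or.inl hj'), hxj'⟩
      · exact ⟨n, Or.inl (Or.inr rfl), hx⟩
      · have hjS : j ∈ S (!b) := by
          by_contra hh
          exact hj (Or.inr ⟨hh, x, hxj, hx⟩)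
        exact ⟨n, Or.inl (Or.inr rfl), a4 ⟨hx, h3 _ j hjS hxj⟩⟩
      · obtain ⟨j', hj', hxj'⟩ := mem_iUnion₂.1 hx
        exact ⟨j', Or.inr hj', hxj'⟩
    · simp only [hcb, if_false] at hx hj ⊢
      exact h4 c j x hx hxj hj
  · intro c
    by_cases hcb : c = b
    · simp only [hcb, if_true]; intro x hx; exact Or.inl (Or.inl hx)
    · simp only [hcb, if_false]; exact Subset.rfl
  · intro c
    by_cases hcb : c = b
    · simp only [hcb, if_true]; intro x hx; exact Or.inl (Or.inl hx)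
    · simp only [hcb, if_false]; exact Subset.rfl
  · simp only [if_true]; exact Or.inl (Or.inr rfl)
  · simp only [if_true]; intro x hx; exact Or.inr (Or.inl (a2 hx))
  · intro x hx
    by_cases hxO : x ∈ G (!b)
    · right
      simp only [hnb, if_false]
      exact h4 _ n x hxO hx hb
    · exact Or.inl (a1 ⟨hx, hxO⟩)

lemma colour_run {J : Type} [Countable J] [Nonempty J] {D : J → Set M}
    (hc : ∀ j, IsClosed (D j)) (hn : Null D)
    {G : Bool → Set M} {S : Bool → Set J} (h : Inv D G S) :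
    ∃ (c : J → Bool) (W : Bool → Set M), (∀ b, IsOpen (W b)) ∧ Disjoint (W false) (W true) ∧
      (∀ b, ∀ j ∈ S b, c j = b) ∧
      ∀ j, ∀ x ∈ D j, x ∈ W (c j) ∨ ∃ j', c j' = !(c j) ∧ x ∈ D j' := by
  obtain ⟨f, hf⟩ := exists_surjective_nat J
  choose g hg using hf
  have key : ∀ (s : {p : (Bool → Set M) × (Bool → Set J) // Inv D p.1 p.2}) (n : J),
      ∃ (s' : {p : (Bool → Set M) × (Bool → Set J) // Inv D p.1 p.2}) (b : Bool) (W : Set M),
      (∀ c, s.1.1 c ⊆ s'.1.1 c) ∧ (∀ c, s.1.2 c ⊆ s'.1.2 c) ∧ n ∈ s'.1.2 b ∧ IsOpen W ∧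
      W ⊆ s'.1.1 b ∧ Disjoint W (s.1.1 (!b)) ∧
      ∀ x ∈ D n, x ∈ W ∨ ∃ j ∈ s'.1.2 (!b), x ∈ D j := by
    intro s n
    obtain ⟨G', S', b, W, a, r⟩ := colour_step hc hn s.2 n
    exact ⟨⟨(G', S'), a⟩, b, W, r⟩
  choose nx col W k1 k2 k3 k4 k5 k6 k7 using key
  let s : ℕ → {p : (Bool → Set M) × (Bool → Set J) // Inv D p.1 p.2} :=
    fun n => Nat.rec ⟨(G, S), h⟩ (fun n t => nx t (f n)) n
  have hs : ∀ n, s (n + 1) = nx (s n) (f n) := fun n => rfl
  have mG : ∀ b, Monotone fun n => (s n).1.1 b := fun b =>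
    monotone_nat_of_le_succ fun n => by rw [hs]; exact k1 _ _ b
  have mS : ∀ b, Monotone fun n => (s n).1.2 b := fun b =>
    monotone_nat_of_le_succ fun n => by rw [hs]; exact k2 _ _ b
  let c : J → Bool := fun j => col (s (g j)) (f (g j))
  have hcj : ∀ j, j ∈ (s (g j + 1)).1.2 (c j) := by
    intro j
    have := k3 (s (g j)) (f (g j))
    rw [← hs] at this
    have e : ∀ t : Set J, f (g j) ∈ t → j ∈ t := fun t ht => by rwa [hg j] at ht
    exact e _ this
  have huniq : ∀ n b j, j ∈ (s n).1.2 b → c j = b := by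
    intro n b j hj
    by_contra hne
    have hb : c j = !b := by
      revert hne; cases c j <;> cases b <;> simp
    have a1 := mS b (le_max_left n (g j + 1)) hj
    have a2 := mS (c j) (le_max_right n (g j + 1)) (hcj j)
    rw [hb] at a2
    exact (s _).2.2.1 b j a1 a2
  refine ⟨c, fun b => ⋃ n, ⋃ (_ : col (s n) (f n) = b), W (s n) (f n), ?_, ?_, ?_, ?_⟩
  · intro b
    exact isOpen_iUnion fun n => isOpen_iUnion fun _ => k4 _ _
  · have hd : ∀ m n, m < n → col (s m) (f m) = !(col (s n) (f n)) →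
        Disjoint (W (s m) (f m)) (W (s n) (f n)) := by
      intro m n hmn he
      have a1 : W (s m) (f m) ⊆ (s n).1.1 (!(col (s n) (f n))) := by
        rw [← he]
        refine (k5 (s m) (f m)).trans ?_
        rw [← hs]
        exact mG _ (Nat.succ_le_of_lt hmn)
      exact ((k6 (s n) (f n)).mono_right a1).symm
    rw [Set.disjoint_left]
    intro x hx hx'
    obtain ⟨m, hm, hxm⟩ := mem_iUnion₂.1 hx
    obtain ⟨n, hn', hxn⟩ := mem_iUnion₂.1 hx'
    rcases lt_trichotomy m n with hlt | rfl | hlt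
    · exact Set.disjoint_left.1 (hd m n hlt (by rw [hm, hn']; rfl)) hxm hxn
    · rw [hm] at hn'; exact Bool.false_ne_true hn'
    · exact Set.disjoint_left.1 (hd n m hlt (by rw [hm, hn']; rfl)) hxn hxm
  · intro b j hj
    exact huniq 0 b j hj
  · intro j x hx
    have hx' : x ∈ D (f (g j)) := by rw [hg]; exact hx
    rcases k7 (s (g j)) (f (g j)) x hx' with h1 | ⟨j', h1, h2⟩
    · left
      exact mem_iUnion₂.2 ⟨g j, rfl, h1⟩
    · right
      rw [← hs] at h1
      exact ⟨j', huniq (g j + 1) (!(c j)) j' h1, h2⟩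

theorem colour {J : Type} [Countable J] {D : J → Set M} (hc : ∀ j, IsClosed (D j))
    (hn : Null D) {A B : Set M} (hA : IsClosed A) (hB : IsClosed B) (hAB : Disjoint A B)
    (hD : ∀ j, ¬ ((D j ∩ A).Nonempty ∧ (D j ∩ B).Nonempty)) :
    ∃ (c : J → Bool) (U V : Set M), IsOpen U ∧ IsOpen V ∧ Disjoint U V ∧ A ⊆ U ∧ B ⊆ V ∧
      ∀ j, ∀ x ∈ D j, x ∉ U ∪ V → ∀ b, ∃ j', c j' = b ∧ x ∈ D j' := by
  let R : Bool → Set M := fun b => cond b B A
  have hR : ∀ b, IsClosed (R b) := by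
    intro b; cases b
    · exact hA
    · exact hB
  let D' : J ⊕ Bool → Set M := Sum.elim D R
  have hc' : ∀ j, IsClosed (D' j) := by
    rintro (j | b)
    · exact hc j
    · exact hR b
  have hn' : Null D' := by
    intro δ hδ
    refine (((hn δ hδ).image Sum.inl).union (finite_range (Sum.inr : Bool → J ⊕ Bool))).subset ?_
    rintro (j | b) hj
    · exact Or.inl ⟨j, hj, rfl⟩
    · exact Or.inr ⟨b, rfl⟩
  have hD' : ∀ j, ¬ ((D' j ∩ A).Nonempty ∧ (D' j ∩ B).Nonempty) := by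
    rintro (j | b)
    · exact hD j
    · cases b
      · rintro ⟨-, x, hx1, hx2⟩
        exact Set.disjoint_left.1 hAB hx1 hx2
      · rintro ⟨⟨x, hx1, hx2⟩, -⟩
        exact Set.disjoint_left.1 hAB hx2 hx1
  let S : Bool → Set (J ⊕ Bool) := fun b => {j | (D' j ∩ R b).Nonempty}
  have hI : Inv D' (fun b => R b ∪ ⋃ j ∈ S b, D' j) S := by
    refine ⟨fun b => null_closed hc' hn' (hR b) fun j hj => hj, ?_, ?_, ?_⟩
    · intro b j hj hj'
      cases b
      · exact hD' j ⟨hj, hj'⟩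
      · exact hD' j ⟨hj', hj⟩
    · intro b j hj x hx
      exact Or.inr (mem_biUnion hj hx)
    · rintro b j x (hx | hx) hxj hj
      · exact absurd ⟨x, hxj, hx⟩ hj
      · obtain ⟨j', hj', hxj'⟩ := mem_iUnion₂.1 hx
        exact ⟨j', hj', hxj'⟩
  obtain ⟨c, W, a1, a2, a3, a4⟩ := colour_run hc' hn' hI
  have hsub : ∀ b, R b ⊆ W b := by
    intro b x hx
    have e : c (Sum.inr b) = b := a3 b _ ⟨x, hx, hx⟩
    rcases a4 (Sum.inr b) x hx with h | ⟨j', h1, h2⟩
    · rwa [e] at h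
    · have := a3 b j' ⟨x, h2, hx⟩
      rw [e, this] at h1
      cases b <;> simp at h1
  refine ⟨fun j => c (Sum.inl j), W false, W true, a1 _, a1 _, a2, hsub false, hsub true, ?_⟩
  intro j x hx hxW b
  have hxb : ∀ b, x ∉ W b := by
    intro b h; cases b
    · exact hxW (Or.inl h)
    · exact hxW (Or.inr h)
  by_cases hb : c (Sum.inl j) = b
  · exact ⟨j, hb, hx⟩
  · rcases a4 (Sum.inl j) x hx with h | ⟨j', h1, h2⟩
    · exact absurd h (hxb _)
    · rcases j' with j' | b'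
      · refine ⟨j', ?_, h2⟩
        show c (Sum.inl j') = b
        rw [h1]
        revert hb; cases c (Sum.inl j) <;> cases b <;> simp
      · exact absurd (hsub b' h2) (hxb _)

end Pool.Agent.MP_671186_gt

end

section

set_option autoImplicit false

namespace Pool.Agent.MP_671186_gt

open Set Metric

section General

variable {M : Type} [MetricSpace M] {ι : Type}

/-- `L` can be exhausted in `r` rounds by removing disjoint open neighbourhoods of a prescribed
pair. -/
def Cov (A B : ι → Set M) : ℕ → Set M → Prop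
  | 0, L => L = ∅
  | r + 1, L => ∀ i, ∃ U V : Set M, IsOpen U ∧ IsOpen V ∧ Disjoint U V ∧ A i ⊆ U ∧ B i ⊆ V ∧
      Cov A B r (L \ (U ∪ V))

lemma cov_mono {A B : ι → Set M} : ∀ (r : ℕ) {L L' : Set M}, Cov A B r L → L' ⊆ L →
    Cov A B r L'
  | 0, L, L', h, hs => by
      have h' : L = ∅ := h
      show L' = ∅
      rw [h'] at hs
      exact subset_empty_iff.1 hs
  | r + 1, L, L', h, hs => by
      intro i
      obtain ⟨U, V, a1, a2, a3, a4, a5, a6⟩ := h i
      exact ⟨U, V, a1, a2, a3, a4, a5, cov_mono r a6 (sdiff_subset_sdiff_left hs)⟩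

lemma cov_add {A B : ι → Set M} (s : ℕ) : ∀ (r : ℕ) {L S : Set M}, IsClosed L → Cov A B r S →
    (∀ L' ⊆ L, IsClosed L' → Disjoint L' S → Cov A B s L') → Cov A B (s + r) L
  | 0, L, S, hL, hS, h => by
      have h' : S = ∅ := hS
      exact h L Subset.rfl hL (by rw [h']; exact disjoint_empty L)
  | r + 1, L, S, hL, hS, h => by
      intro i
      obtain ⟨U, V, a1, a2, a3, a4, a5, a6⟩ := hS i
      refine ⟨U, V, a1, a2, a3, a4, a5, cov_add s r (hL.sdiff (a1.union a2)) a6 ?_⟩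
      intro L' hL' hc hd
      refine h L' (hL'.trans sdiff_subset) hc ?_
      rw [Set.disjoint_left] at hd ⊢
      intro x hx hxS
      exact hd hx ⟨hxS, (hL' hx).2⟩

lemma cov_extract {A B : ι → Set M} (hA : ∀ i, IsClosed (A i)) (hB : ∀ i, IsClosed (B i))
    (hAB : ∀ i, Disjoint (A i) (B i)) : ∀ (r : ℕ) {L : Set M} (T : Finset ι), Cov A B r L →
    r ≤ T.card → ∃ U V : ι → Set M, (∀ i, IsOpen (U i) ∧ IsOpen (V i) ∧ Disjoint (U i) (V i) ∧
      A i ⊆ U i ∧ B i ⊆ V i) ∧ ∀ x ∈ L, ∃ i ∈ T, x ∈ U i ∪ V i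
  | 0, L, T, h, _ => by
      have h' : L = ∅ := h
      have : ∀ i, ∃ U V : Set M, IsOpen U ∧ IsOpen V ∧ A i ⊆ U ∧ B i ⊆ V ∧ Disjoint U V :=
        fun i => normal_separation (hA i) (hB i) (hAB i)
      choose U V a1 a2 a3 a4 a5 using this
      exact ⟨U, V, fun i => ⟨a1 i, a2 i, a5 i, a3 i, a4 i⟩, by simp [h']⟩
  | r + 1, L, T, h, hr => by
      classical
      obtain ⟨i, hi⟩ : T.Nonempty := Finset.card_pos.1 (by omega)
      obtain ⟨U0, V0, a1, a2, a3, a4, a5, a6⟩ := h i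
      obtain ⟨U, V, b1, b2⟩ := cov_extract hA hB hAB r (T.erase i) a6
        (by rw [Finset.card_erase_of_mem hi]; omega)
      refine ⟨Function.update U i U0, Function.update V i V0, fun l => ?_, fun x hx => ?_⟩
      · by_cases hl : l = i
        · subst hl
          simp only [Function.update_self]
          exact ⟨a1, a2, a3, a4, a5⟩
        · simp only [Function.update_of_ne hl]
          exact b1 l
      · by_cases hx0 : x ∈ U0 ∪ V0
        · exact ⟨i, hi, by simpa only [Function.update_self] using hx0⟩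
        · obtain ⟨l, hl, hxl⟩ := b2 x ⟨hx, hx0⟩
          obtain ⟨hl1, hl2⟩ := Finset.mem_erase.1 hl
          exact ⟨l, hl2, by simpa only [Function.update_of_ne hl1] using hxl⟩

theorem kill {J : Type} [Countable J] {A B : ι → Set M} (hA : ∀ i, IsClosed (A i))
    (hB : ∀ i, IsClosed (B i)) (hAB : ∀ i, Disjoint (A i) (B i)) :
    ∀ (q : ℕ) (D : J → Set M), (∀ j, IsClosed (D j)) → Null D →
    (∀ i j, ¬ ((D j ∩ A i).Nonempty ∧ (D j ∩ B i).Nonempty)) →
    (∀ x, {j | x ∈ D j}.encard ≤ q) → Cov A B q (⋃ j, D j)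
  | 0, D, _, _, _, ho => by
      show (⋃ j, D j) = ∅
      rw [eq_empty_iff_forall_notMem]
      intro x hx
      obtain ⟨j, hj⟩ := mem_iUnion.1 hx
      have h := ho x
      simp only [Nat.cast_zero, nonpos_iff_eq_zero, encard_eq_zero] at h
      exact (eq_empty_iff_forall_notMem.1 h) j hj
  | q + 1, D, hc, hn, hD, ho => by
      intro i
      obtain ⟨c, U, V, a1, a2, a3, a4, a5, a6⟩ := colour hc hn (hA i) (hB i) (hAB i) (hD i)
      refine ⟨U, V, a1, a2, a3, a4, a5, ?_⟩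
      let D' : J → Set M := fun j => {x | c j = false ∧ x ∈ D j \ (U ∪ V)}
      have hsub : ∀ j, D' j ⊆ D j := fun j x hx => hx.2.1
      have h1 := kill hA hB hAB q D' ?_ ?_ ?_ ?_
      · refine cov_mono q h1 ?_
        rintro x ⟨hx, hxW⟩
        obtain ⟨j, hj⟩ := mem_iUnion.1 hx
        obtain ⟨j', b1, b2⟩ := a6 j x hj hxW false
        exact mem_iUnion.2 ⟨j', b1, b2, hxW⟩
      · intro j
        exact isClosed_const.and ((hc j).sdiff (a1.union a2))
      · intro δ hδ
        refine (hn δ hδ).subset fun j hj h => hj fun x hx y hy => h x (hsub j hx) y (hsub j hy)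
      · rintro l j ⟨b1, b2⟩
        exact hD l j ⟨b1.mono (inter_subset_inter_left _ (hsub j)),
          b2.mono (inter_subset_inter_left _ (hsub j))⟩
      · intro x
        rcases {j | x ∈ D' j}.eq_empty_or_nonempty with h | ⟨j, hj⟩
        · rw [h]; simp
        · obtain ⟨j', b1, b2⟩ := a6 j x hj.2.1 hj.2.2 true
          have hn' : j' ∉ {j | x ∈ D' j} := by
            intro h
            have := h.1
            rw [b1] at this
            exact absurd this (by simp)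
          have h2 : insert j' {j | x ∈ D' j} ⊆ {j | x ∈ D j} := by
            rintro l (rfl | hl)
            · exact b2
            · exact hsub l hl
          have h3 := (encard_le_encard h2).trans (ho x)
          rw [encard_insert_of_notMem hn', Nat.cast_add, Nat.cast_one] at h3
          exact (ENat.add_le_add_iff_right ENat.one_ne_top).1 h3

end General

theorem miranda {ι : Type} [Fintype ι] (h : (ι → ℝ) → ι → ℝ)
    (hc : ContinuousOn h {x | ∀ i, |x i| ≤ 1})
    (hp : ∀ x : ι → ℝ, (∀ i, |x i| ≤ 1) → ∀ i, (x i = 1 → 0 < h x i) ∧ (x i = -1 → h x i < 0)) :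
    ∃ x : ι → ℝ, (∀ i, |x i| ≤ 1) ∧ h x = 0 := by
  let f : (ι → ℝ) → ι → ℝ := fun x i => max (-1) (min 1 (x i - h x i))
  have hf : ContinuousOn f {x | ∀ i, |x i| ≤ 1} := by
    refine continuousOn_pi.2 fun i => ?_
    have h1 : ContinuousOn (fun x => h x i) {x | ∀ i, |x i| ≤ 1} :=
      (continuous_apply i).comp_continuousOn hc
    have h2 : ContinuousOn (fun x : ι → ℝ => x i - h x i) {x | ∀ i, |x i| ≤ 1} :=
      (continuous_apply i).continuousOn.sub h1
    have h3 : Continuous fun t : ℝ => max (-1) (min 1 t) := by fun_prop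
    exact h3.comp_continuousOn h2
  obtain ⟨a, ha, hfa⟩ := MP_92c74b_an.brouwer_cube (b := 1) zero_le_one f hf (by
    intro a _ i
    rw [abs_le]
    exact ⟨le_max_left _ _, max_le (by norm_num) (min_le_left _ _)⟩)
  refine ⟨a, ha, funext fun i => ?_⟩
  have e : max (-1) (min 1 (a i - h a i)) = a i := congrFun hfa i
  obtain ⟨p1, p2⟩ := hp a ha i
  have hai := abs_le.1 (ha i)
  show h a i = 0
  rcases le_total 1 (a i - h a i) with c | c
  · rw [min_eq_left c, max_eq_right (by norm_num)] at e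
    have := p1 e.symm
    linarith
  · rw [min_eq_right c] at e
    rcases le_total (-1) (a i - h a i) with c' | c'
    · rw [max_eq_right c'] at e
      linarith
    · rw [max_eq_left c'] at e
      have := p2 e.symm
      linarith

/-- The hyperplane where coordinate `i` equals `α i + t`. -/
def plane {d : ℕ} (α : Fin d → ℝ) (t : ℝ) (i : Fin d) : Set (Fin d → ℝ) := {x | x i = α i + t}

lemma isClosed_plane {d : ℕ} (α : Fin d → ℝ) (t : ℝ) (i : Fin d) : IsClosed (plane α t i) :=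
  isClosed_eq (continuous_apply i) continuous_const

lemma disjoint_plane {d : ℕ} (α : Fin d → ℝ) {D : ℝ} (hD : 0 < D) (i : Fin d) :
    Disjoint (plane α 0 i) (plane α D i) := by
  rw [Set.disjoint_left]
  intro x h1 h2
  have a1 : x i = α i + 0 := h1
  have a2 : x i = α i + D := h2
  linarith

theorem not_cov {d : ℕ} (α : Fin d → ℝ) {D : ℝ} (hD : 0 < D) {r : ℕ} (hr : r ≤ d) :
    ¬ Cov (plane α 0) (plane α D) r (cube α D) := by
  intro h
  obtain ⟨U, V, a, b⟩ := cov_extract (isClosed_plane α 0) (isClosed_plane α D)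
    (disjoint_plane α hD) r Finset.univ h (by simpa using hr)
  let φ : (Fin d → ℝ) → Fin d → ℝ := fun x i => α i + D * (1 + x i) / 2
  have hφ : Continuous φ := by fun_prop
  have hU : ∀ i, (U i)ᶜ.Nonempty := fun i =>
    ⟨fun l => α l + D, fun hx => Set.disjoint_left.1 (a i).2.2.1 hx ((a i).2.2.2.2 rfl)⟩
  have hV : ∀ i, (V i)ᶜ.Nonempty := fun i =>
    ⟨fun l => α l + 0, fun hx => Set.disjoint_left.1 (a i).2.2.1 ((a i).2.2.2.1 rfl) hx⟩
  have pU : ∀ i y, y ∈ U i → infDist y (V i)ᶜ - infDist y (U i)ᶜ < 0 := by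
    intro i y hy
    have h1 : infDist y (V i)ᶜ = 0 :=
      infDist_zero_of_mem fun hx => Set.disjoint_left.1 (a i).2.2.1 hy hx
    have h2 : 0 < infDist y (U i)ᶜ :=
      ((a i).1.isClosed_compl.notMem_iff_infDist_pos (hU i)).1 fun hx => hx hy
    linarith
  have pV : ∀ i y, y ∈ V i → 0 < infDist y (V i)ᶜ - infDist y (U i)ᶜ := by
    intro i y hy
    have h1 : infDist y (U i)ᶜ = 0 :=
      infDist_zero_of_mem fun hx => Set.disjoint_left.1 (a i).2.2.1 hx hy
    have h2 : 0 < infDist y (V i)ᶜ :=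
      ((a i).2.1.isClosed_compl.notMem_iff_infDist_pos (hV i)).1 fun hx => hx hy
    linarith
  obtain ⟨x, hx, h0⟩ := miranda
    (fun x i => infDist (φ x) (V i)ᶜ - infDist (φ x) (U i)ᶜ)
    (by
      refine Continuous.continuousOn (continuous_pi fun i => ?_)
      exact ((continuous_infDist_pt _).comp hφ).sub ((continuous_infDist_pt _).comp hφ))
    (by
      intro x _ i
      constructor
      · intro e
        refine pV i _ ((a i).2.2.2.2 ?_)
        show α i + D * (1 + x i) / 2 = α i + D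
        rw [e]; ring
      · intro e
        refine pU i _ ((a i).2.2.2.1 ?_)
        show α i + D * (1 + x i) / 2 = α i + 0
        rw [e]; ring)
  have hq : φ x ∈ cube α D := by
    intro i
    obtain ⟨h1, h2⟩ := abs_le.1 (hx i)
    show α i ≤ α i + D * (1 + x i) / 2 ∧ α i + D * (1 + x i) / 2 ≤ α i + D
    constructor <;> nlinarith
  obtain ⟨i, -, hi⟩ := b _ hq
  have e : infDist (φ x) (V i)ᶜ - infDist (φ x) (U i)ᶜ = 0 := congrFun h0 i
  rcases hi with hi | hi
  · linarith [pU i _ hi]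
  · linarith [pV i _ hi]

end Pool.Agent.MP_671186_gt

end

section

set_option autoImplicit false

namespace Pool.Agent.MP_671186_gt

open Set Metric

variable {M : Type} [MetricSpace M]

/-- `P` and `R` have disjoint open neighbourhoods which together cover `K`. -/
def Sep (K P R : Set M) : Prop :=
  ∃ U V : Set M, IsOpen U ∧ IsOpen V ∧ Disjoint U V ∧ P ⊆ U ∧ R ⊆ V ∧ K ⊆ U ∪ V

lemma sep_symm {K P R : Set M} (h : Sep K P R) : Sep K R P := by
  obtain ⟨U, V, a1, a2, a3, a4, a5, a6⟩ := h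
  exact ⟨V, U, a2, a1, a3.symm, a5, a4, by rwa [union_comm]⟩

lemma sep_point {K P R : Set M} (hP : IsCompact P) (h : ¬ Sep K P R) :
    ∃ p ∈ P, ¬ Sep K {p} R := by
  by_contra hcon
  have h1 : ∀ p ∈ P, Sep K {p} R := by
    intro p hp
    by_contra hh
    exact hcon ⟨p, hp, hh⟩
  choose! U V a1 a2 a3 a4 a5 a6 using h1
  obtain ⟨T, hT, hfin, hcov⟩ := hP.elim_finite_subcover_image (b := P) (c := U) a1
    (fun p hp => mem_biUnion hp (a4 p hp rfl))
  refine h ⟨⋃ p ∈ T, U p, ⋂ p ∈ T, V p, isOpen_biUnion fun p hp => a1 p (hT hp),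
    hfin.isOpen_biInter fun p hp => a2 p (hT hp), ?_, hcov, ?_, ?_⟩
  · rw [Set.disjoint_left]
    intro z hz hz'
    obtain ⟨p, hp, hzp⟩ := mem_iUnion₂.1 hz
    exact Set.disjoint_left.1 (a3 p (hT hp)) hzp (mem_iInter₂.1 hz' p hp)
  · exact subset_iInter₂ fun p hp => a5 p (hT hp)
  · intro z hz
    by_cases hzU : z ∈ ⋃ p ∈ T, U p
    · exact Or.inl hzU
    · refine Or.inr (mem_iInter₂.2 fun p hp => ?_)
      rcases a6 p (hT hp) hz with h' | h'
      · exact absurd (mem_biUnion hp h') hzU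
      · exact h'

lemma sep_extend {L A B : Set M} (hL : IsClosed L) (hA : IsClosed A) (hB : IsClosed B)
    (hAB : Disjoint A B) (h : Sep L (A ∩ L) (B ∩ L)) : Sep L A B := by
  obtain ⟨U, V, a1, a2, a3, a4, a5, a6⟩ := h
  have hd : Disjoint (A ∪ L \ V) (B ∪ L \ U) := by
    rw [Set.disjoint_left]
    rintro z (hz | hz) (hz' | hz')
    · exact Set.disjoint_left.1 hAB hz hz'
    · exact hz'.2 (a4 ⟨hz, hz'.1⟩)
    · exact hz.2 (a5 ⟨hz', hz.1⟩)
    · rcases a6 hz.1 with h | h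
      · exact hz'.2 h
      · exact hz.2 h
  obtain ⟨U', V', b1, b2, b3, b4, b5⟩ :=
    normal_separation (hA.union (hL.sdiff a2)) (hB.union (hL.sdiff a1)) hd
  refine ⟨U', V', b1, b2, b5, subset_union_left.trans b3, subset_union_left.trans b4, ?_⟩
  intro z hz
  by_cases hzV : z ∈ V
  · exact Or.inr (b4 (Or.inr ⟨hz, fun h => Set.disjoint_left.1 a3 h hzV⟩))
  · exact Or.inl (b3 (Or.inr ⟨hz, hzV⟩))

/-- Two points of `K` in no common member that cannot be separated in `K`. -/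
def Knot {N : Type} (C : N → Set M) (K : Set M) : Prop :=
  ∃ a ∈ K, ∃ b ∈ K, (∀ n, ¬ (a ∈ C n ∧ b ∈ C n)) ∧ ¬ Sep K {a} {b}

lemma knot_aux {N : Type} {C : N → Set M} (hC : ∀ n, IsClosed (C n)) {K : Set M}
    (hK : IsCompact K) (hcov : ∀ x ∈ K, ∃ n, x ∈ C n)
    (hone : ∀ x ∈ K, ∀ m n, x ∈ C m → x ∈ C n → m = n) {a b : M} (hb : b ∈ K)
    (hab : ∀ n, ¬ (a ∈ C n ∧ b ∈ C n)) (hs : ¬ Sep K {a} {b}) (n : N) (hbn : b ∉ C n) :
    ∃ K' ⊆ K, IsCompact K' ∧ Knot C K' ∧ Disjoint K' (C n) := by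
  obtain ⟨m, hm⟩ := hcov b hb
  have hP : IsClosed ({a} ∪ C n ∩ K) := isClosed_singleton.union ((hC n).inter hK.isClosed)
  have hR : IsClosed (C m ∩ K) := (hC m).inter hK.isClosed
  have hPR : {a} ∪ C n ∩ K ⊆ (C m ∩ K)ᶜ := by
    rintro z (hz | hz) hz'
    · rw [mem_singleton_iff.1 hz] at hz'
      exact hab m ⟨hz'.1, hm⟩
    · have := hone z hz.2 m n hz'.1 hz.1
      rw [this] at hm
      exact hbn hm
  obtain ⟨O, hO, hPO, hOR⟩ := normal_exists_closure_subset hP hR.isOpen_compl hPR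
  have hK' : IsCompact (K \ O) := hK.diff hO
  have hbO : b ∉ closure O := fun h => hOR h ⟨hm, hb⟩
  have hns : ¬ Sep (K \ O) ((K \ O) ∩ closure O) {b} := by
    rintro ⟨U, V, a1, a2, a3, a4, a5, a6⟩
    refine hs ⟨U ∪ O, V \ closure O, a1.union hO, a2.sdiff isClosed_closure, ?_, ?_, ?_, ?_⟩
    · rw [Set.disjoint_left]
      rintro z (hz | hz) hz'
      · exact Set.disjoint_left.1 a3 hz hz'.1
      · exact hz'.2 (subset_closure hz)
    · intro z hz
      exact Or.inr (hPO (Or.inl hz))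
    · intro z hz
      refine ⟨a5 hz, ?_⟩
      rw [mem_singleton_iff.1 hz]
      exact hbO
    · intro z hz
      by_cases hzO : z ∈ O
      · exact Or.inl (Or.inr hzO)
      · by_cases hzU : z ∈ U
        · exact Or.inl (Or.inl hzU)
        · rcases a6 ⟨hz, hzO⟩ with h | h
          · exact absurd h hzU
          · exact Or.inr ⟨h, fun h' => hzU (a4 ⟨⟨hz, hzO⟩, h'⟩)⟩
  obtain ⟨a', ha', hs'⟩ := sep_point (hK'.inter_right isClosed_closure) hns
  refine ⟨K \ O, sdiff_subset, hK', ⟨a', ha'.1, b, ⟨hb, fun h => hbO (subset_closure h)⟩, ?_, hs'⟩,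
    ?_⟩
  · rintro l ⟨h1, h2⟩
    rw [hone b hb l m h2 hm] at h1
    exact hOR ha'.2 ⟨h1, ha'.1.1⟩
  · rw [Set.disjoint_left]
    intro z hz hz'
    exact hz.2 (hPO (Or.inr ⟨hz', hz.1⟩))

lemma knot_step {N : Type} {C : N → Set M} (hC : ∀ n, IsClosed (C n)) {K : Set M}
    (hK : IsCompact K) (hcov : ∀ x ∈ K, ∃ n, x ∈ C n)
    (hone : ∀ x ∈ K, ∀ m n, x ∈ C m → x ∈ C n → m = n) (h : Knot C K) (n : N) :
    ∃ K' ⊆ K, IsCompact K' ∧ Knot C K' ∧ Disjoint K' (C n) := by
  obtain ⟨a, ha, b, hb, hab, hs⟩ := h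
  by_cases hbn : b ∈ C n
  · exact knot_aux hC hK hcov hone ha (fun l hl => hab l ⟨hl.2, hl.1⟩)
      (fun h => hs (sep_symm h)) n fun h => hab n ⟨h, hbn⟩
  · exact knot_aux hC hK hcov hone hb hab hs n hbn

theorem sierp {N : Type} [Countable N] {C : N → Set M} (hC : ∀ n, IsClosed (C n)) {L : Set M}
    (hL : IsCompact L) (hcov : ∀ x ∈ L, ∃ n, x ∈ C n)
    (hone : ∀ x ∈ L, ∀ m n, x ∈ C m → x ∈ C n → m = n) {A B : Set M} (hA : IsClosed A)
    (hB : IsClosed B) (hAB : Disjoint A B)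
    (hD : ∀ n, ¬ ((C n ∩ A).Nonempty ∧ (C n ∩ B).Nonempty)) : Sep L A B := by
  by_contra hcon
  have h1 : ¬ Sep L (A ∩ L) (B ∩ L) := fun h => hcon (sep_extend hL.isClosed hA hB hAB h)
  obtain ⟨a, ha, h2⟩ := sep_point (hL.inter_left hA) h1
  obtain ⟨b, hb, h3⟩ := sep_point (hL.inter_left hB) (fun h => h2 (sep_symm h))
  have hk : Knot C L := ⟨b, hb.2, a, ha.2,
    fun n hn => hD n ⟨⟨a, hn.2, ha.1⟩, ⟨b, hn.1, hb.1⟩⟩, h3⟩
  have : Nonempty N := ⟨(hcov a ha.2).choose⟩
  obtain ⟨f, hf⟩ := exists_surjective_nat N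
  have key : ∀ (s : {K : Set M // K ⊆ L ∧ IsCompact K ∧ Knot C K}) (n : N),
      ∃ s' : {K : Set M // K ⊆ L ∧ IsCompact K ∧ Knot C K}, s'.1 ⊆ s.1 ∧ Disjoint s'.1 (C n) := by
    intro s n
    obtain ⟨K', b1, b2, b3, b4⟩ := knot_step hC s.2.2.1 (fun x hx => hcov x (s.2.1 hx))
      (fun x hx => hone x (s.2.1 hx)) s.2.2.2 n
    exact ⟨⟨K', b1.trans s.2.1, b2, b3⟩, b1, b4⟩
  choose nx k1 k2 using key
  let s : ℕ → {K : Set M // K ⊆ L ∧ IsCompact K ∧ Knot C K} :=
    fun n => Nat.rec ⟨L, Subset.rfl, hL, hk⟩ (fun n t => nx t (f n)) n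
  have hs : ∀ n, s (n + 1) = nx (s n) (f n) := fun n => rfl
  obtain ⟨x, hx⟩ := IsCompact.nonempty_iInter_of_sequence_nonempty_isCompact_isClosed
    (fun n => (s n).1) (fun n => by rw [hs]; exact k1 _ _)
    (fun n => by
      obtain ⟨a, ha, -⟩ := (s n).2.2.2
      exact ⟨a, ha⟩) (s 0).2.2.1 (fun n => (s n).2.2.1.isClosed)
  obtain ⟨m, hm⟩ := hcov x ((s 0).2.1 (mem_iInter.1 hx 0))
  obtain ⟨n, rfl⟩ := hf m
  have h4 : x ∈ (s (n + 1)).1 := mem_iInter.1 hx (n + 1)
  rw [hs] at h4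
  exact Set.disjoint_left.1 (k2 (s n) (f n)) h4 hm

end Pool.Agent.MP_671186_gt

end

section

set_option autoImplicit false

namespace Pool.Agent.MP_671186_gt

open Set Metric

section General

variable {M : Type} [MetricSpace M] {ι : Type}

lemma thin_mono {k : ℕ} {δ : ℝ} {S S' : Set M} (h : Thin k δ S) (hs : S' ⊆ S) : Thin k δ S' := by
  obtain ⟨F, a1, a2, a3, a4⟩ := h
  exact ⟨F, a1, a2, hs.trans a3, a4⟩

lemma best_cover {K : Type} [Countable K] (k : ℕ) (E : K → Set M) (hc : ∀ a, IsClosed (E a))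
    (ht : ∀ δ > 0, {a | ¬ Thin k δ (E a)}.Finite) :
    ∃ F : K → Set (Set M), (∀ a, (F a).Finite ∧ (∀ V ∈ F a, IsClosed V) ∧ E a ⊆ ⋃₀ F a ∧
      ∀ x, {V ∈ F a | x ∈ V}.encard ≤ k + 1) ∧
      ∀ δ > 0, {a | ¬ ∀ V ∈ F a, ∀ x ∈ V, ∀ y ∈ V, dist x y ≤ δ}.Finite := by
  classical
  obtain ⟨e, he⟩ := exists_injective_nat K
  let t : K → ℕ := fun a => Nat.findGreatest (fun n => Thin k (1 / ((n : ℝ) + 1)) (E a)) (e a)
  have h1 : ∀ a, ∃ F : Set (Set M), (F.Finite ∧ (∀ V ∈ F, IsClosed V) ∧ E a ⊆ ⋃₀ F ∧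
      ∀ x, {V ∈ F | x ∈ V}.encard ≤ k + 1) ∧ (Thin k (1 / ((t a : ℝ) + 1)) (E a) →
      ∀ V ∈ F, ∀ x ∈ V, ∀ y ∈ V, dist x y ≤ 1 / ((t a : ℝ) + 1)) := by
    intro a
    by_cases h : Thin k (1 / ((t a : ℝ) + 1)) (E a)
    · obtain ⟨F, a1, a2, a3, a4⟩ := h
      exact ⟨F, ⟨a1, fun V hV => (a2 V hV).1, a3, a4⟩, fun _ V hV => (a2 V hV).2⟩
    · refine ⟨{E a}, ⟨finite_singleton _, ?_, by simp, fun x => ?_⟩, fun h' => absurd h' h⟩
      · intro V hV
        rw [mem_singleton_iff.1 hV]; exact hc a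
      · refine (encard_le_encard (sep_subset _ _)).trans ?_
        rw [encard_singleton]
        exact le_add_self
  choose F b1 b2 using h1
  refine ⟨F, b1, fun δ hδ => ?_⟩
  obtain ⟨n, hn⟩ := exists_nat_one_div_lt hδ
  have f1 : {a | e a < n}.Finite := (finite_lt_nat n).preimage he.injOn
  refine (f1.union (ht (1 / ((n : ℝ) + 1)) (by positivity))).subset fun a ha => ?_
  by_contra hcon
  simp only [mem_union, mem_ofPred_eq, not_or, not_not, not_lt] at hcon
  obtain ⟨c1, c2⟩ := hcon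
  have c3 : n ≤ t a :=
    Nat.le_findGreatest (P := fun n => Thin k (1 / ((n : ℝ) + 1)) (E a)) c1 c2
  have c4 : Thin k (1 / ((t a : ℝ) + 1)) (E a) :=
    Nat.findGreatest_spec (P := fun n => Thin k (1 / ((n : ℝ) + 1)) (E a)) c1 c2
  refine ha fun V hV x hx y hy => (b2 a c4 V hV x hx y hy).trans (le_trans ?_ hn.le)
  have c5 : (n : ℝ) ≤ t a := by exact_mod_cast c3
  exact one_div_le_one_div_of_le (by positivity) (by linarith)

theorem cov_thin {K : Type} [Countable K] {A B : ι → Set M} (hA : ∀ i, IsClosed (A i))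
    (hB : ∀ i, IsClosed (B i)) (hAB : ∀ i, Disjoint (A i) (B i)) (k : ℕ) (E : K → Set M)
    (hc : ∀ a, IsClosed (E a)) (hdis : ∀ a a' x, x ∈ E a → x ∈ E a' → a = a')
    (ht : ∀ δ > 0, {a | ¬ Thin k δ (E a)}.Finite)
    (hD : ∀ i a, ¬ ((E a ∩ A i).Nonempty ∧ (E a ∩ B i).Nonempty)) :
    Cov A B (k + 1) (⋃ a, E a) := by
  obtain ⟨F, b1, b2⟩ := best_cover k E hc ht
  have : ∀ a, Finite (F a) := fun a => (b1 a).1.to_subtype
  let D : (Σ a, F a) → Set M := fun j => j.2.1 ∩ E j.1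
  have h1 := kill hA hB hAB (k + 1) D ?_ ?_ ?_ ?_
  · refine cov_mono _ h1 ?_
    intro x hx
    obtain ⟨a, ha⟩ := mem_iUnion.1 hx
    obtain ⟨V, hV, hxV⟩ := (b1 a).2.2.1 ha
    exact mem_iUnion.2 ⟨⟨a, ⟨V, hV⟩⟩, hxV, ha⟩
  · intro j
    exact ((b1 j.1).2.1 _ j.2.2).inter (hc _)
  · intro δ hδ
    refine ((b2 δ hδ).biUnion (t := fun a => range (Sigma.mk (β := fun a => F a) a))
      fun a _ => finite_range _).subset ?_
    rintro ⟨a, V⟩ hj
    refine mem_biUnion (x := a) ?_ ⟨V, rfl⟩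
    intro h
    exact hj fun x hx y hy => h V.1 V.2 x hx.1 y hy.1
  · rintro i j ⟨c1, c2⟩
    exact hD i j.1 ⟨c1.mono (inter_subset_inter_left _ inter_subset_right),
      c2.mono (inter_subset_inter_left _ inter_subset_right)⟩
  · intro x
    rcases {j | x ∈ D j}.eq_empty_or_nonempty with h | ⟨j0, hj0⟩
    · rw [h]; simp
    · have h2 : {j | x ∈ D j}.encard ≤ {V ∈ F j0.1 | x ∈ V}.encard := by
        refine encard_le_encard_of_injOn (f := fun j : (Σ a, F a) => j.2.1) ?_ ?_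
        · rintro ⟨a, V⟩ hj
          have e : a = j0.1 := hdis _ _ x hj.2 hj0.2
          subst e
          exact ⟨V.2, hj.1⟩
        · rintro ⟨a, V⟩ hj ⟨a', V'⟩ hj' h
          have e : a = a' := hdis _ _ x hj.2 hj'.2
          subst e
          have e' : V = V' := Subtype.ext h
          rw [e']
      refine h2.trans ?_
      rw [Nat.cast_add, Nat.cast_one]
      exact (b1 j0.1).2.2.2 x

theorem cov_order {N : Type} [Countable N] {A B : ι → Set M} (hA : ∀ i, IsClosed (A i))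
    (hB : ∀ i, IsClosed (B i)) (hAB : ∀ i, Disjoint (A i) (B i)) (k : ℕ) (C : N → Set M)
    (hC : ∀ n, IsClosed (C n)) {Q : Set M} (hQ : IsCompact Q) (X : N → Set M)
    (hXC : ∀ n, X n ⊆ C n) (hcov : ∀ x ∈ Q, ∃ n, x ∈ X n)
    (hX : ∀ i n, ¬ ((X n ∩ A i).Nonempty ∧ (X n ∩ B i).Nonempty))
    (hD : ∀ i n n', n ≠ n' →
      ¬ ((C n ∩ C n' ∩ Q ∩ A i).Nonempty ∧ (C n ∩ C n' ∩ Q ∩ B i).Nonempty))
    (ht : ∀ δ > 0, {p : N × N | p.1 ≠ p.2 ∧ ¬ Thin k δ (C p.1 ∩ C p.2 ∩ Q)}.Finite) :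
    ∀ (j : ℕ) (L : Set M), L ⊆ Q → IsClosed L →
      (∀ x ∈ L, {n | x ∈ C n}.encard ≤ ((j + 1 : ℕ) : ℕ∞)) → Cov A B (1 + j * (k + 1)) L
  | 0, L, hLQ, hL, ho => by
      have e : 1 + 0 * (k + 1) = 0 + 1 := by ring
      rw [e]
      intro i
      have hone : ∀ x ∈ L, ∀ m n, x ∈ C m → x ∈ C n → m = n :=
        fun x hx m n hm hn => encard_le_one_iff.1 (by simpa using ho x hx) m n hm hn
      have hsub : ∀ n, C n ∩ L ⊆ X n := by
        rintro n x ⟨hx, hxL⟩
        obtain ⟨m, hm⟩ := hcov x (hLQ hxL)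
        rw [hone x hxL n m hx (hXC m hm)]
        exact hm
      obtain ⟨U, V, a1, a2, a3, a4, a5, a6⟩ := sierp (C := fun n => C n ∩ L)
        (fun n => (hC n).inter hL) (hQ.of_isClosed_subset hL hLQ)
        (fun x hx => by
          obtain ⟨m, hm⟩ := hcov x (hLQ hx)
          exact ⟨m, hXC m hm, hx⟩)
        (fun x hx m n hm hn => hone x hx m n hm.1 hn.1)
        (hA i) (hB i) (hAB i) (fun n h => hX i n
          ⟨h.1.mono (inter_subset_inter_left _ (hsub n)),
            h.2.mono (inter_subset_inter_left _ (hsub n))⟩)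
      exact ⟨U, V, a1, a2, a3, a4, a5, sdiff_eq_empty.2 a6⟩
  | j + 1, L, hLQ, hL, ho => by
      classical
      have e : 1 + (j + 1) * (k + 1) = (1 + j * (k + 1)) + (k + 1) := by ring
      rw [e]
      let E : {I : Finset N // I.card = j + 2} → Set M := fun I => L ∩ ⋂ n ∈ I.1, C n
      have hE : ∀ I x, x ∈ E I ↔ x ∈ L ∧ ∀ n ∈ I.1, x ∈ C n := by
        intro I x
        simp only [E, mem_inter_iff, mem_iInter]
      have h1 : Cov A B (k + 1) (⋃ I, E I) := by
        refine cov_thin hA hB hAB k E ?_ ?_ ?_ ?_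
        · intro I
          exact hL.inter (isClosed_biInter fun n _ => hC n)
        · intro I I' x hx hx'
          obtain ⟨a1, a2⟩ := (hE I x).1 hx
          obtain ⟨-, a3⟩ := (hE I' x).1 hx'
          have a4 : ((I.1 ∪ I'.1 : Finset N) : Set N) ⊆ {n | x ∈ C n} := by
            intro n hn
            rcases Finset.mem_union.1 (Finset.mem_coe.1 hn) with h | h
            · exact a2 n h
            · exact a3 n h
          have a5 := (encard_le_encard a4).trans (ho x a1)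
          rw [encard_coe_eq_coe_finsetCard, Nat.cast_le] at a5
          have a6 : I.1 = I.1 ∪ I'.1 :=
            Finset.eq_of_subset_of_card_le Finset.subset_union_left (by rw [I.2]; exact a5)
          have a7 : I'.1 = I.1 ∪ I'.1 :=
            Finset.eq_of_subset_of_card_le Finset.subset_union_right (by rw [I'.2]; exact a5)
          exact Subtype.ext (a6.trans a7.symm)
        · intro δ hδ
          have f1 := ((ht δ hδ).image Prod.fst).finite_subsets
          have inj : Function.Injective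
              (fun I : {I : Finset N // I.card = j + 2} => (I.1 : Set N)) :=
            fun I I' h => Subtype.ext (Finset.coe_injective h)
          refine (f1.preimage inj.injOn).subset fun I hI n hn => ?_
          obtain ⟨n', hn', hne⟩ := Finset.exists_mem_ne (s := I.1) (by rw [I.2]; omega) n
          refine ⟨(n, n'), ⟨hne.symm, fun h => hI (thin_mono h fun x hx => ?_)⟩, rfl⟩
          obtain ⟨a1, a2⟩ := (hE I x).1 hx
          exact ⟨⟨a2 n hn, a2 n' hn'⟩, hLQ a1⟩
        · rintro i I ⟨c1, c2⟩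
          obtain ⟨n, hn⟩ : I.1.Nonempty := Finset.card_pos.1 (by rw [I.2]; omega)
          obtain ⟨n', hn', hne⟩ := Finset.exists_mem_ne (s := I.1) (by rw [I.2]; omega) n
          have a1 : E I ⊆ C n ∩ C n' ∩ Q := fun x hx =>
            ⟨⟨((hE I x).1 hx).2 n hn, ((hE I x).1 hx).2 n' hn'⟩, hLQ ((hE I x).1 hx).1⟩
          exact hD i n n' hne.symm ⟨c1.mono (inter_subset_inter_left _ a1),
            c2.mono (inter_subset_inter_left _ a1)⟩
      refine cov_add _ _ hL h1 fun L' hL' hc hd => ?_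
      refine cov_order hA hB hAB k C hC hQ X hXC hcov hX hD ht j L' (hL'.trans hLQ) hc fun x hx => ?_
      by_contra hcon
      have a1 : ((j + 2 : ℕ) : ℕ∞) ≤ {n | x ∈ C n}.encard := by
        have := Order.add_one_le_of_lt (not_le.1 hcon)
        refine le_trans (le_of_eq ?_) this
        push_cast; ring
      obtain ⟨t, ht1, ht2⟩ := exists_subset_encard_eq a1
      have ft : t.Finite := finite_of_encard_eq_coe ht2
      have a2 : ft.toFinset.card = j + 2 := by
        rw [ft.encard_eq_coe_toFinset_card] at ht2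
        exact_mod_cast ht2
      refine Set.disjoint_left.1 hd hx (mem_iUnion.2 ⟨⟨ft.toFinset, a2⟩, (hE _ x).2 ⟨hL' hx, ?_⟩⟩)
      intro n hn
      exact ht1 (ft.mem_toFinset.1 hn)

end General

lemma isCompact_cube {d : ℕ} (α : Fin d → ℝ) (D : ℝ) : IsCompact (cube α D) := by
  have : cube α D = Icc α (fun i => α i + D) := by
    ext x
    simp only [cube, mem_ofPred_eq, mem_Icc, Pi.le_def, forall_and]
  rw [this]
  exact isCompact_Icc

theorem lower {d : ℕ} (hd : 1 ≤ d) (k : ℕ) {D : ℝ} (hD : 0 < D) (α : Fin d → ℝ)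
    (P : Set (Set (Fin d → ℝ))) (h : Adm k D α P) :
    ∃ p : Fin d → ℝ, (((d + k) / (k + 1) + 1 : ℕ) : ℕ∞) ≤ {X ∈ P | p ∈ closure X}.encard := by
  obtain ⟨h1, h2, h3, h5, h4⟩ := h
  by_contra hcon
  obtain ⟨j, hj⟩ : ∃ j, (d + k) / (k + 1) = j + 1 :=
    Nat.exists_eq_succ_of_ne_zero (Nat.div_pos (by omega) (by omega)).ne'
  have hjd : 1 + j * (k + 1) ≤ d := by
    have := Nat.div_mul_le_self (d + k) (k + 1)
    rw [hj] at this
    nlinarith
  have : Countable {X ∈ P | (X ∩ cube α D).Nonempty} := h3.to_subtype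
  have far : ∀ (i : Fin d) (x y : Fin d → ℝ), x ∈ plane α 0 i → y ∈ plane α D i →
      ¬ dist x y < D := by
    intro i x y hxA hyB
    have a3 := dist_le_pi_dist x y i
    have e1 : x i = α i + 0 := hxA
    have e2 : y i = α i + D := hyB
    rw [e1, e2, Real.dist_eq, show α i + 0 - (α i + D) = -D by ring, abs_neg, abs_of_pos hD] at a3
    exact not_lt.2 a3
  refine not_cov α hD hjd (cov_order (N := {X ∈ P | (X ∩ cube α D).Nonempty})
    (isClosed_plane α 0) (isClosed_plane α D) (disjoint_plane α hD) k (fun n => closure n.1)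
    (fun _ => isClosed_closure) (isCompact_cube α D) (fun n => n.1) (fun _ => subset_closure)
    ?_ ?_ ?_ ?_ j _ Subset.rfl (isCompact_cube α D).isClosed ?_)
  · intro x hx
    obtain ⟨X, ⟨hX, hxX⟩, -⟩ := h1.2 x
    exact ⟨⟨X, hX, x, hxX, hx⟩, hxX⟩
  · rintro i n ⟨⟨x, hx, hxA⟩, ⟨y, hy, hyB⟩⟩
    exact far i x y hxA hyB (h2 n.1 n.2.1 x hx y hy)
  · rintro i n n' hne ⟨⟨x, hx, hxA⟩, ⟨y, hy, hyB⟩⟩
    exact far i x y hxA hyB (h5 n.1 n.2.1 n'.1 n'.2.1 (fun e => hne (Subtype.ext e)) x hx y hy)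
  · intro δ hδ
    have inj : Function.Injective (fun p : {X ∈ P | (X ∩ cube α D).Nonempty} ×
        {X ∈ P | (X ∩ cube α D).Nonempty} => (p.1.1, p.2.1)) := by
      intro p q e
      exact Prod.ext (Subtype.ext (congrArg Prod.fst e)) (Subtype.ext (congrArg Prod.snd e))
    refine ((h4 δ hδ).preimage inj.injOn).subset fun p hp => ?_
    exact ⟨p.1.2.1, p.2.2.1, fun e => hp.1 (Subtype.ext e), p.1.2.2, p.2.2.2, hp.2⟩
  · intro x _
    have a1 : {n : {X ∈ P | (X ∩ cube α D).Nonempty} | x ∈ closure n.1}.encard ≤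
        {X ∈ P | x ∈ closure X}.encard :=
      encard_le_encard_of_injOn (f := Subtype.val) (fun n hn => ⟨n.2.1, hn⟩)
        Subtype.val_injective.injOn
    refine a1.trans ?_
    have a2 : {X ∈ P | x ∈ closure X}.encard < (((d + k) / (k + 1) + 1 : ℕ) : ℕ∞) :=
      not_le.1 fun h => hcon ⟨x, h⟩
    rw [hj, Nat.cast_add (j + 1) 1, Nat.cast_one] at a2
    exact Order.le_of_lt_add_one a2

end Pool.Agent.MP_671186_gt

end

section

set_option autoImplicit false

namespace Pool.Agent.MP_671186_gt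

open Set Metric

lemma stagger (j S : ℕ) :
    {t : ℕ × ℕ | t.1 < j ∧ (t.2 = (S + t.1) / j ∨ t.2 = (S - 1 + t.1) / j)}.encard
      ≤ ((j + 1 : ℕ) : ℕ∞) := by
  classical
  have h1 : ((Finset.range (j + 1) : Finset ℕ) : Set ℕ).encard = ((j + 1 : ℕ) : ℕ∞) := by
    rw [encard_coe_eq_coe_finsetCard, Finset.card_range]
  rw [← h1]
  have key : ∀ b v, b < j → (v = (S + b) / j ∨ v = (S - 1 + b) / j) → v ≠ (S + b) / j →
      v = (S - 1 + b) / j ∧ j ∣ S + b := by
    intro b v _ h hne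
    have h2 : v = (S - 1 + b) / j := h.resolve_left hne
    refine ⟨h2, ?_⟩
    by_contra hd
    rcases Nat.eq_zero_or_pos S with hS | hS
    · subst hS; exact hne h2
    · have e : S + b = (S - 1 + b) + 1 := by omega
      rw [e] at hne hd
      rw [Nat.succ_div, if_neg hd, add_zero] at hne
      exact hne h2
  refine encard_le_encard_of_injOn
    (f := fun t : ℕ × ℕ => if t.2 = (S + t.1) / j then t.1 else j) ?_ ?_
  · rintro ⟨b, v⟩ ⟨hb, -⟩
    simp only [Finset.coe_range, mem_Iio]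
    split_ifs <;> omega
  · rintro ⟨b, v⟩ ⟨hb, hv⟩ ⟨b', v'⟩ ⟨hb', hv'⟩ h
    simp only at hb hv hb' hv' h
    by_cases c : v = (S + b) / j <;> by_cases c' : v' = (S + b') / j
    · rw [if_pos c, if_pos c'] at h
      subst h
      rw [c, c']
    · rw [if_pos c, if_neg c'] at h; omega
    · rw [if_neg c, if_pos c'] at h; omega
    · obtain ⟨a1, a2⟩ := key b v hb hv c
      obtain ⟨a3, a4⟩ := key b' v' hb' hv' c'
      have a5 : S + b ≡ S + b' [MOD j] :=
        ((Nat.modEq_zero_iff_dvd).2 a2).trans ((Nat.modEq_zero_iff_dvd).2 a4).symm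
      have a6 : b = b' := (Nat.ModEq.add_left_cancel' S a5).eq_of_lt_of_lt hb hb'
      subst a6
      rw [a1, a3]

theorem upper {d : ℕ} (hd : 1 ≤ d) (k : ℕ) {D : ℝ} (hD : 0 < D) :
    ∃ P : Set (Set (Fin d → ℝ)), P.Countable ∧ (∀ α, Adm k D α P) ∧
      ∀ p : Fin d → ℝ,
        {X ∈ P | p ∈ closure X}.encard ≤ (((d + k) / (k + 1) + 1 : ℕ) : ℕ∞) := by
  obtain ⟨col, c1, c2⟩ := exists_col hd
  set j := (d + k) / (k + 1) with hj
  have hj0 : 0 < j := Nat.div_pos (by omega) (by omega)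
  set c : ℝ := D / 2 with hc
  have hc0 : 0 < c := by positivity
  let sc : (Fin d → ℝ) → Fin d → ℝ := fun x l => x l / c
  have hsc : Continuous sc := by fun_prop
  let sh : (Fin d → ℝ) → ℕ := fun y => ⌊1 / depth y⌋₊
  let bl : (Fin d → ℝ) → ℕ := fun y => col y / (k + 1)
  have hbl : ∀ y, bl y < j := by
    intro y
    have a1 : (col y + (k + 1)) / (k + 1) ≤ (d + k) / (k + 1) :=
      Nat.div_le_div_right (by have := c1 y; omega)
    rw [Nat.add_div_right _ (by omega)] at a1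
    exact a1
  let lab : (Fin d → ℝ) → (Fin d → ℤ) × (Fin d → Bool) × ℕ × ℕ := fun x =>
    (corner (sc x), frozen (sc x), bl (sc x), (sh (sc x) + bl (sc x)) / j)
  have hmem : ∀ X ∈ (Setoid.ker lab).classes, ∃ z, X = lab ⁻¹' {lab z} := by
    rintro X ⟨z, rfl⟩
    exact ⟨z, rfl⟩
  have hcount : (Setoid.ker lab).classes.Countable := by
    refine (countable_range fun l => lab ⁻¹' {l}).mono fun X hX => ?_
    obtain ⟨z, rfl⟩ := hmem X hX
    exact ⟨lab z, rfl⟩
  have hle : ∀ s b v : ℕ, (s + b) / j = v → s ≤ (v + 1) * j := by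
    intro s b v h
    have := (Nat.div_lt_iff_lt_mul hj0).1 (show (s + b) / j < v + 1 by omega)
    omega
  have hdiam : ∀ X ∈ (Setoid.ker lab).classes, ∀ x ∈ X, ∀ y ∈ X, dist x y ≤ c := by
    intro X hX x hx y hy
    obtain ⟨z, rfl⟩ := hmem X hX
    have hx' : lab x = lab z := hx
    have hy' : lab y = lab z := hy
    have hxy : corner (sc x) = corner (sc y) := congrArg Prod.fst (hx'.trans hy'.symm)
    rw [dist_pi_le_iff hc0.le]
    intro i
    have hi : ⌊x i / c⌋ = ⌊y i / c⌋ := congrFun hxy i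
    have h1 : |x i / c - y i / c| < 1 := Int.abs_sub_lt_one_of_floor_eq_floor hi
    rw [Real.dist_eq]
    rw [← sub_div, abs_div, abs_of_pos hc0, div_lt_one hc0] at h1
    exact h1.le
  have hcD : c < D := by linarith
  refine ⟨(Setoid.ker lab).classes, hcount, fun α => ⟨Setoid.isPartition_classes _,
    fun X hX x hx y hy => (hdiam X hX x hx y hy).trans_lt hcD,
    hcount.mono (sep_subset _ _), ?_, ?_⟩, ?_⟩
  · intro X hX Y _ _ x hx y hy
    have a1 : ∀ u ∈ closure X, ∀ v ∈ X, dist u v ≤ c := by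
      intro u hu v hv
      exact closure_minimal (t := {u | dist u v ≤ c}) (fun w hw => hdiam X hX w hw v hv)
        (isClosed_le (continuous_id.dist continuous_const) continuous_const) hu
    have a2 : dist x y ≤ c :=
      closure_minimal (t := {v | dist x v ≤ c}) (fun w hw => a1 x hx.1.1 w hw)
        (isClosed_le (continuous_const.dist continuous_id) continuous_const) hy.1.1
    exact a2.trans_lt hcD
  · intro δ hδ
    obtain ⟨n, hn⟩ := exists_pow_lt_of_lt_one (div_pos hδ hc0) (show (1 / 2 : ℝ) < 1 by norm_num)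
    have hn' : c * (1 / 2 ^ n) ≤ δ := by
      rw [one_div_pow, lt_div_iff₀ hc0] at hn
      linarith
    obtain ⟨s0, hs0⟩ := c2 n
    have hthin : ∀ z, s0 < (lab z).2.2.2 → Thin k δ (closure (lab ⁻¹' {lab z}) ∩ cube α D) := by
      intro z hz
      set b := bl (sc z) with hb
      set v := (sh (sc z) + b) / j with hv
      have hz' : s0 < v := hz
      refine thin_far k (Finset.Ico (b * (k + 1)) ((b + 1) * (k + 1)))
        (by rw [Nat.card_Ico]; apply le_of_eq; rw [add_mul]; omega)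
        (fun i => c * (((i : ℝ) + 1) / (2 * d + 1))) (h := c * (1 / 2 ^ n))
        (ρ := c * (1 / (2 * (2 * d + 1) * 2 ^ ((v + 1) * j)))) (by positivity) (by positivity)
        hn' α (fun l => α l + D) (fun x hx => hx.2) ?_
      intro x hx
      have hcl : IsClosed (⋃ i ∈ Finset.Ico (b * (k + 1)) ((b + 1) * (k + 1)),
          Far (d := d) (c * (((i : ℝ) + 1) / (2 * d + 1))) (c * (1 / 2 ^ n))
            (c * (1 / (2 * (2 * d + 1) * 2 ^ ((v + 1) * j))))) :=
        isClosed_biUnion_finset fun i _ => isClosed_far _ _ _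
      have h1 := closure_minimal (s := lab ⁻¹' {lab z}) ?_ hcl hx.1
      · obtain ⟨i, hi, hxi⟩ := mem_iUnion₂.1 h1
        exact ⟨i, hi, hxi⟩
      · intro u hu
        have hu' : lab u = lab z := hu
        have e1 : bl (sc u) = b := congrArg (fun t => t.2.2.1) hu'
        have e2 : (sh (sc u) + bl (sc u)) / j = v := congrArg (fun t => t.2.2.2) hu'
        have a1 : sh (sc u) ≤ (v + 1) * j := hle _ _ _ e2
        have a2 : s0 ≤ sh (sc u) := by
          have b1 := Nat.div_mul_le_self (sh (sc u) + bl (sc u)) j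
          rw [e2] at b1
          have b2 := hbl (sc u)
          have b3 : (s0 + 1) * j ≤ v * j := Nat.mul_le_mul_right j hz'
          have b4 : s0 ≤ s0 * j := Nat.le_mul_of_pos_right _ hj0
          rw [add_mul] at b3
          omega
        refine mem_iUnion₂.2 ⟨col (sc u), ?_, far_scale hc0 (hs0 (sc u) _ a2 a1)⟩
        rw [Finset.mem_Ico, ← e1]
        exact ⟨Nat.div_mul_le_self _ _, (Nat.div_lt_iff_lt_mul (by omega)).1 (Nat.lt_succ_self _)⟩
    have hfin : {X | X ∈ (Setoid.ker lab).classes ∧ (X ∩ cube α D).Nonempty ∧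
        ¬ Thin k δ (closure X ∩ cube α D)}.Finite := by
      have f1 : ((Icc (corner (sc α)) (corner (sc fun l => α l + D))) ×ˢ
          ((univ : Set (Fin d → Bool)) ×ˢ (Iio j ×ˢ Iic s0))).Finite :=
        (finite_Icc _ _).prod (finite_univ.prod ((finite_Iio j).prod (finite_Iic s0)))
      refine (f1.image fun l => lab ⁻¹' {l}).subset ?_
      rintro X ⟨hX, ⟨x, hx, hxq⟩, hT⟩
      obtain ⟨z, rfl⟩ := hmem X hX
      have hx' : lab x = lab z := hx
      rw [← hx'] at hT ⊢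
      refine ⟨lab x, ⟨⟨fun l => ?_, fun l => ?_⟩, mem_univ _, hbl _, ?_⟩, rfl⟩
      · exact Int.floor_mono (div_le_div_of_nonneg_right (hxq l).1 hc0.le)
      · exact Int.floor_mono (div_le_div_of_nonneg_right (hxq l).2 hc0.le)
      · by_contra hh
        exact hT (hthin x (not_le.1 hh))
    refine (hfin.prod hfin).subset ?_
    rintro ⟨X, Y⟩ ⟨a1, a2, -, a3, a4, a5⟩
    refine ⟨⟨a1, a3, fun h => a5 (thin_mono h ?_)⟩, ⟨a2, a4, fun h => a5 (thin_mono h ?_)⟩⟩
    · exact inter_subset_inter_left _ inter_subset_left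
    · exact inter_subset_inter_left _ inter_subset_right
  · intro p
    refine le_trans (encard_le_encard ?_) ((encard_image_le
      (fun t : ℕ × ℕ => lab ⁻¹' {(corner (sc p), frozen (sc p), t.1, t.2)}) _).trans
      (stagger j (sh (sc p))))
    rintro X ⟨hX, hp⟩
    obtain ⟨z, rfl⟩ := hmem X hX
    set b := bl (sc z) with hb
    set v := (sh (sc z) + b) / j with hv
    have hcl : IsClosed (⋃ s ∈ {s : ℕ | (s + b) / j = v},
        sc ⁻¹' hull (corner (sc z)) (frozen (sc z)) s) := by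
      refine Finite.isClosed_biUnion ((finite_Iic ((v + 1) * j)).subset fun s hs => hle s b v hs)
        fun s _ => (isClosed_hull _ _ _).preimage hsc
    have h1 := closure_minimal (s := lab ⁻¹' {lab z}) ?_ hcl hp
    · obtain ⟨s, hs, hps⟩ := mem_iUnion₂.1 h1
      obtain ⟨e1, e2, e3⟩ := label_of_mem_hull hps
      have hs' : (s + b) / j = v := hs
      refine ⟨(b, v), ⟨hbl _, ?_⟩, ?_⟩
      · rcases e3 with e3 | e3
        · left; rw [← hs', e3]
        · right; rw [← hs', e3]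
      · show lab ⁻¹' {(corner (sc p), frozen (sc p), b, v)} = _
        rw [← e1, ← e2]
    · intro u hu
      have hu' : lab u = lab z := hu
      have e1 : corner (sc u) = corner (sc z) := congrArg Prod.fst hu'
      have e2 : frozen (sc u) = frozen (sc z) := congrArg (fun t => t.2.1) hu'
      have e3 : bl (sc u) = b := congrArg (fun t => t.2.2.1) hu'
      have e4 : (sh (sc u) + bl (sc u)) / j = v := congrArg (fun t => t.2.2.2) hu'
      refine mem_iUnion₂.2 ⟨sh (sc u), ?_, ?_⟩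
      · show (sh (sc u) + b) / j = v
        rw [← e3]; exact e4
      · have h2 := mem_hull_of_label (sc u)
        rw [e1, e2] at h2
        exact h2

end Pool.Agent.MP_671186_gt

end
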